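import Pool.Agent.H924.Ctr.Stmt
import Pool.Graph.R_seed8.R388.TP.Final

/-!
# Towers of Frobenius twists
-/

set_option autoImplicit false
set_option linter.unusedSectionVars false

namespace Pool.Agent.H924.Ctr

open MvPolynomial Pool.Agent.Y129.TA
open Pool.Agent.Y129.TB (IsConeOver InTube Approximable DimLEOver form_map eval_map_alg BaseField
  approx imageOver imageOver_cone OE)
open Pool.Agent.X271.TQ (IsZero hom_smul approx_of_system aeval_zero_form)

section Fam

variable {A R : Type} [CommRing A] [CommRing R] {ι κ ρ : Type}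

theorem map_genIdeal (ψ : A →+* R) (P : ρ → MvPolynomial ι A) :
    (genIdeal P).map (MvPolynomial.map ψ) = genIdeal fun j => MvPolynomial.map ψ (P j) := by
  rw [genIdeal, Ideal.map_span, ← Set.range_comp]
  rfl

theorem map_coeffIdeal {𝔪 : Ideal A} {𝔫 : Ideal R} (ψ : A →+* R) (h : ∀ a ∈ 𝔪, ψ a ∈ 𝔫) :
    (coeffIdeal 𝔪 ι).map (MvPolynomial.map ψ) ≤ coeffIdeal 𝔫 ι := by
  rw [coeffIdeal, Ideal.map_map, Ideal.map_le_iff_le_comap]
  intro a ha
  change MvPolynomial.map ψ (C a) ∈ coeffIdeal 𝔫 ι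
  rw [map_C]
  exact Ideal.mem_map_of_mem _ (h a ha)

theorem free_map {𝔪 : Ideal A} {𝔫 : Ideal R} (ψ : A →+* R) (h : ∀ a ∈ 𝔪, ψ a ∈ 𝔫)
    {P : ρ → MvPolynomial ι A} {f : κ → MvPolynomial ι A} (hf : FreeOnFibre 𝔪 P f) :
    FreeOnFibre 𝔫 (fun j => MvPolynomial.map ψ (P j)) (fun j => MvPolynomial.map ψ (f j)) := by
  intro i
  obtain ⟨N, hN⟩ := hf i
  refine ⟨N, ?_⟩
  have h1 := Ideal.mem_map_of_mem (MvPolynomial.map ψ) hN
  rw [map_pow, map_X, Ideal.map_sup, Ideal.map_sup, map_genIdeal, map_genIdeal] at h1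
  exact (sup_le_sup_left (map_coeffIdeal ψ h) _) h1

theorem forms_map (ψ : A →+* R) {P : ρ → MvPolynomial ι A} (hP : AreForms P) :
    AreForms fun j => MvPolynomial.map ψ (P j) := fun j => by
  obtain ⟨e, he, h⟩ := hP j
  exact ⟨e, he, h.map _⟩

theorem fibreDim_map {𝔪 : Ideal A} {𝔫 : Ideal R} (ψ : A →+* R) (h : ∀ a ∈ 𝔪, ψ a ∈ 𝔫)
    {P : ρ → MvPolynomial ι A} {d : ℕ} (hd : FibreDimLE 𝔪 P d) :
    FibreDimLE 𝔫 (fun j => MvPolynomial.map ψ (P j)) d := by
  obtain ⟨q, hq, hq'⟩ := hd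
  exact ⟨fun j => MvPolynomial.map ψ (q j), forms_map ψ hq, free_map ψ h hq'⟩

theorem kills_map {𝔪 : Ideal A} {𝔫 : Ideal R} (ψ : A →+* R) (h : ∀ a ∈ 𝔪, ψ a ∈ 𝔫)
    {P : ρ → MvPolynomial ι A} {Q : MvPolynomial ι A}
    (hQ : Q ∈ genIdeal P ^ 2 ⊔ coeffIdeal 𝔪 ι * genIdeal P) :
    MvPolynomial.map ψ Q ∈ genIdeal (fun j => MvPolynomial.map ψ (P j)) ^ 2 ⊔
      coeffIdeal 𝔫 ι * genIdeal (fun j => MvPolynomial.map ψ (P j)) := by
  have h1 := Ideal.mem_map_of_mem (MvPolynomial.map ψ) hQ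
  rw [Ideal.map_sup, Ideal.map_pow, Ideal.map_mul, map_genIdeal] at h1
  exact (sup_le_sup_left (Ideal.mul_mono_left (map_coeffIdeal ψ h)) _) h1

theorem map_aeval (ψ : A →+* R) (f : κ → MvPolynomial ι A) (Q : MvPolynomial κ A) :
    MvPolynomial.map ψ (aeval f Q) =
      aeval (fun i => MvPolynomial.map ψ (f i)) (MvPolynomial.map ψ Q) := by
  induction Q using MvPolynomial.induction_on with
  | C a => rw [aeval_C, map_C, aeval_C, algebraMap_eq, algebraMap_eq, map_C]
  | add a b ha hb => rw [map_add, map_add, map_add, map_add, ha, hb]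
  | mul_X a i ha => rw [map_mul, map_mul, map_mul, map_mul, ha, aeval_X, map_X, aeval_X]

end Fam

variable {p : ℕ} [hp : Fact p.Prime] {C F K E : Type} [Field C] [Field F] [CharP F p] [Field K]
  [Field E] [Algebra K C] [Algebra E F]

theorem shrinks_p {T : TiltPair p C F} {ι ρ : Type} {P : ρ → MvPolynomial ι (intRing T K)}
    {Q : MvPolynomial ι (intRing T K)}
    (hQ : Q ∈ genIdeal P ^ 2 ⊔ coeffIdeal (Ideal.span {(p : intRing T K)}) ι * genIdeal P) :
    Shrinks P (T.absK p) Q := by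
  obtain ⟨a, ha, b, hb, rfl⟩ := Submodule.mem_sup.1 hQ
  intro z δ hz hδ hP
  rw [map_add]
  refine (T.ultraK _ _).trans (max_le_max ?_ ?_)
  · have h2 : genIdeal P ^ 2 ≤
        smallIdeal K hz (mul_nonneg hδ hδ) (abs_aeval_le hz) := by
      rw [pow_two, Ideal.mul_le]
      intro x hx y hy
      have hx' : T.absK (aeval z x) ≤ δ := span_le hz hδ hP hx
      have hy' : T.absK (aeval z y) ≤ δ := span_le hz hδ hP hy
      change T.absK (aeval z (x * y)) ≤ δ * δ
      rw [map_mul, map_mul]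
      exact mul_le_mul hx' hy' (T.absK.nonneg _) hδ
    exact h2 ha
  · rw [coeffIdeal, Ideal.map_span, Set.image_singleton] at hb
    obtain ⟨c, hc, rfl⟩ := Ideal.mem_span_singleton_mul.1 hb
    have hc' : T.absK (aeval z c) ≤ δ := span_le hz hδ hP hc
    rw [map_mul, map_mul, aeval_C]
    have h3 : algebraMap (intRing T K) C (p : intRing T K) = p := map_natCast _ _
    rw [h3]
    exact mul_le_mul_of_nonneg_left hc' (T.absK.nonneg _)

variable [IsAlgClosed F] (T : Tilting p C F) {A : Type} [CommRing A] {ι ρ : Type}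

/-- The points of the fibre over `F`. -/
def WW (β : A →+* F) (P : ρ → MvPolynomial ι A) : Set (ι → F) :=
  {x | ∀ j, eval₂ β x (P j) = 0}

theorem abs_eval₂_le (T : TiltPair p C F) {β : A →+* F} (hβ : ∀ a, T.absF (β a) ≤ 1) {w : ι → F}
    (hw : ∀ i, T.absF (w i) ≤ 1) (Q : MvPolynomial ι A) : T.absF (eval₂ β w Q) ≤ 1 := by
  induction Q using MvPolynomial.induction_on with
  | C a => rw [eval₂_C]; exact hβ a
  | add a b ha hb => rw [eval₂_add]; exact (T.ultraF _ _).trans (max_le ha hb)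
  | mul_X a i ha =>
    rw [eval₂_mul, eval₂_X, map_mul]
    exact mul_le_one₀ ha (T.absF.nonneg _) (hw i)

theorem close_poly {β : A →+* F} (hβ : ∀ a, T.absF (β a) ≤ 1)
    {ψ : A →+* intRing T.toTiltPair K}
    (hψ : ∀ a, T.absK (algebraMap K C (ψ a : K) - T.sharp (β a)) ≤ T.absK p) {w : ι → F}
    (hw : ∀ i, T.absF (w i) ≤ 1) (Q : MvPolynomial ι A) :
    T.absK (aeval (fun i => T.sharp (w i)) (MvPolynomial.map ψ Q) - T.sharp (eval₂ β w Q)) ≤
      T.absK p := by
  induction Q using MvPolynomial.induction_on with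
  | C a =>
    rw [map_C, aeval_C, eval₂_C]
    exact hψ a
  | add a b ha hb =>
    rw [map_add, map_add, eval₂_add]
    have h1 := sharp_add T ⟨_, abs_eval₂_le T.toTiltPair hβ hw a⟩
      ⟨_, abs_eval₂_le T.toTiltPair hβ hw b⟩
    push_cast at h1
    have h2 : aeval (fun i => T.sharp (w i)) (MvPolynomial.map ψ a) +
        aeval (fun i => T.sharp (w i)) (MvPolynomial.map ψ b) -
        T.sharp (eval₂ β w a + eval₂ β w b) =
        ((aeval (fun i => T.sharp (w i)) (MvPolynomial.map ψ a) - T.sharp (eval₂ β w a)) +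
        (aeval (fun i => T.sharp (w i)) (MvPolynomial.map ψ b) - T.sharp (eval₂ β w b))) +
        (T.sharp (eval₂ β w a) + T.sharp (eval₂ β w b) -
          T.sharp (eval₂ β w a + eval₂ β w b)) := by ring
    rw [h2]
    exact (T.ultraK _ _).trans (max_le ((T.ultraK _ _).trans (max_le ha hb)) h1)
  | mul_X a i ha =>
    rw [map_mul, map_mul, map_X, aeval_X, eval₂_mul, eval₂_X, map_mul, ← sub_mul, map_mul]
    refine (mul_le_of_le_one_right (T.absK.nonneg _) ?_).trans ha
    rw [T.abs_sharp]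
    exact hw i

theorem WW_inT {β : A →+* F} (hβ : ∀ a, T.absF (β a) ≤ 1) (ψ : A →+* intRing T.toTiltPair K)
    (hψ : ∀ a, T.absK (algebraMap K C (ψ a : K) - T.sharp (β a)) ≤ T.absK p)
    (P : ρ → MvPolynomial ι A) :
    InT T.toTiltPair (fun j => MvPolynomial.map ψ (P j)) (T.absK p) (WW β P) := by
  intro w hw hw1 _ j
  have h1 := close_poly T hβ hψ hw1 (P j)
  rwa [hw j, T.toTiltPair.sharp_zero, sub_zero] at h1

theorem WW_cone [Fintype ι] (β : A →+* F)
    (hg : ∀ a, ∃ c : E, algebraMap E F c = β a) {P : ρ → MvPolynomial ι A}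
    (hP : AreForms P) : IsConeOver E (WW β P) := by
  classical
  choose c hc using hg
  let G : ρ → MvPolynomial ι E := fun j =>
    ∑ α ∈ (P j).support, monomial α (c (coeff α (P j)))
  have hG : ∀ (x : ι → F) j, aeval x (G j) = eval₂ β x (P j) := by
    intro x j
    simp only [G]
    rw [map_sum, eval₂_eq']
    refine Finset.sum_congr rfl fun α _ => ?_
    rw [aeval_monomial, hc, Finsupp.prod_fintype _ _ fun i => pow_zero _]
  have h1 : IsZero F G (WW β P) := fun y => by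
    change (∀ j, _) ↔ _
    exact forall_congr' fun j => by rw [hG]
  refine h1.cone fun j => ?_
  obtain ⟨e, he, h⟩ := hP j
  refine ⟨e, he, IsHomogeneous.sum _ _ _ fun α hα => isHomogeneous_monomial _ ?_⟩
  by_contra hne
  exact (mem_support_iff.1 hα) (h.coeff_eq_zero hne)

/-- The twist by a power of the Frobenius does not change the dimension. -/
theorem WW_dimGE [Fintype ι] {β β' : A →+* F} {k : ℕ}
    (hg : ∀ a, β' a ^ p ^ k = β a) {P : ρ → MvPolynomial ι A} {d : ℕ}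
    (h : DimGE (WW β P) d) : DimGE (WW β' P) d := by
  intro q hq
  choose e he hqe using hq
  obtain ⟨y, hy, hy0, hyq⟩ := h (fun j => MvPolynomial.map (iterateFrobenius F p k) (q j))
    fun j => ⟨e j, he j, (hqe j).map _⟩
  have hpk : 0 < p ^ k := pow_pos hp.out.pos k
  choose x hx using fun i => IsAlgClosed.exists_pow_nat_eq (y i) hpk
  have hxf : y = fun i => iterateFrobenius F p k (x i) := by
    funext i
    rw [iterateFrobenius_def]
    exact (hx i).symm
  refine ⟨x, fun j => ?_, ?_, fun j => ?_⟩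
  · have h1 := hy j
    have h2 : eval₂ β y (P j) = iterateFrobenius F p k (eval₂ β' x (P j)) := by
      rw [eval₂_comp_left (iterateFrobenius F p k)]
      have h3 : (iterateFrobenius F p k).comp β' = β := by
        ext a
        rw [RingHom.comp_apply, iterateFrobenius_def]
        exact hg a
      rw [h3, hxf]
      rfl
    rw [h2, iterateFrobenius_def] at h1
    exact pow_eq_zero_iff hpk.ne' |>.1 h1
  · rintro rfl
    refine hy0 (funext fun i => ?_)
    rw [← hx i]
    change (0 : F) ^ p ^ k = 0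
    exact zero_pow hpk.ne'
  · have h1 := hyq j
    have h2 := eval₂_comp_left (iterateFrobenius F p k) (RingHom.id F) x (q j)
    have h3 : (⇑(iterateFrobenius F p k) ∘ x) = y := by rw [hxf]; rfl
    rw [eval_map] at h1
    rw [RingHom.comp_id, h3, h1, iterateFrobenius_def] at h2
    exact (pow_eq_zero_iff hpk.ne').1 h2

/-- **The tower of twists.** -/
theorem tower [IsAlgClosed C] [Fintype ρ] (B : BaseField T K E) {n d k : ℕ} (τ : A →+* A)
    (β : ℕ → A →+* F) (ψ : ℕ → A →+* intRing T.toTiltPair K)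
    (hβ : ∀ m a, T.absF (β m a) ≤ 1)
    (hψ : ∀ m a, T.absK (algebraMap K C (ψ m a : K) - T.sharp (β m a)) ≤ T.absK p)
    (hψτ : ∀ m a, ψ (m + 1) a = ψ m (τ a))
    (hgE : ∀ m a, ∃ c : E, algebraMap E F c = β m a)
    (hk : ∀ m a, β (m + 1) a ^ p ^ k = β m a)
    {𝔪 : Ideal A} (h𝔪 : ∀ m, ∀ a ∈ 𝔪, T.absF (β m a) < 1)
    {P Pσ : ρ → MvPolynomial (Fin (n + 1)) A} (hP : AreForms P)
    (hPσ : ∀ j, MvPolynomial.map τ (Pσ j) = P j)
    (hd : FibreDimLE 𝔪 P d) (hGE : DimGE (WW (β 0) P) d)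
    {f : Fin (n + 1) → MvPolynomial (Fin (n + 1)) A} {D : ℕ} (hD : 0 < D)
    (hf : ∀ i, (f i).IsHomogeneous D) (hfree : FreeOnFibre 𝔪 P f)
    (hcon : ∀ j, aeval f (Pσ j) ∈ genIdeal P ^ 2 ⊔
      coeffIdeal (Ideal.span {(p : A)}) (Fin (n + 1)) * genIdeal P) :
    IsConeOver K (zeros T.toTiltPair fun j => MvPolynomial.map (ψ 0) (P j)) ∧
    DimLEOver K (zeros T.toTiltPair fun j => MvPolynomial.map (ψ 0) (P j)) d ∧
    Approximable T.toTiltPair K E
      (zeros T.toTiltPair fun j => MvPolynomial.map (ψ 0) (P j)) d := by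
  have h𝔫 : ∀ m, ∀ a ∈ 𝔪, ψ m a ∈ maxIdeal T.toTiltPair K := by
    intro m a ha
    change T.absK (algebraMap K C (ψ m a : K)) < 1
    have h1 := hψ m a
    have h2 : T.absK (T.sharp (β m a)) < 1 := by
      rw [T.abs_sharp]
      exact h𝔪 m a ha
    have h3 : algebraMap K C (ψ m a : K) = T.sharp (β m a) +
      (algebraMap K C (ψ m a : K) - T.sharp (β m a)) := by ring
    rw [h3]
    exact (T.ultraK _ _).trans_lt (max_lt h2 (h1.trans_lt T.p_lt))
  have hPm : ∀ m, AreForms fun j => MvPolynomial.map (ψ m) (P j) := fun m => forms_map _ hP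
  have hPm' : ∀ m j, ∃ e, (MvPolynomial.map (ψ m) (P j)).IsHomogeneous e := fun m j => by
    obtain ⟨e, _, h⟩ := hPm m j
    exact ⟨e, h⟩
  have hdm : ∀ m, SpecialDimLE T.toTiltPair (fun j => MvPolynomial.map (ψ m) (P j)) d :=
    fun m => fibreDim_map (ψ m) (h𝔫 m) hd
  have hshr : ∀ m j, Shrinks (fun j => MvPolynomial.map (ψ (m + 1)) (P j)) (T.absK p)
      (aeval (fun i => MvPolynomial.map (ψ (m + 1)) (f i)) (MvPolynomial.map (ψ m) (P j))) := by
    intro m j
    have h1 : MvPolynomial.map (ψ m) (P j) = MvPolynomial.map (ψ (m + 1)) (Pσ j) := by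
      have h2 : (ψ m).comp τ = ψ (m + 1) := RingHom.ext fun a => (hψτ m a).symm
      rw [← hPσ, map_map, h2]
    rw [h1, ← map_aeval]
    refine shrinks_p (kills_map (ψ (m + 1)) (fun a ha => ?_) (hcon j))
    obtain ⟨b, rfl⟩ := Ideal.mem_span_singleton'.1 ha
    rw [map_mul, map_natCast]
    exact Ideal.mul_mem_left _ _ (Ideal.mem_span_singleton_self _)
  have hp0 : 0 ≤ T.absK p := T.absK.nonneg _
  have hWd : ∀ m, DimGE (WW (β m) P) d := by
    intro m
    induction m with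
    | zero => exact hGE
    | succ m ih => exact WW_dimGE (hk m) ih
  have hWc : ∀ m, IsConeOver E (WW (β m) P) := fun m => WW_cone (β m) (hgE m) hP
  have key : ∀ ε : ℝ, 0 < ε → ε < 1 → ∀ l m : ℕ, ∃ W : Set (Fin (n + 1) → F), IsConeOver E W ∧
      DimGE W d ∧ DimLE W d ∧ InT T.toTiltPair (fun j => MvPolynomial.map (ψ m) (P j))
        (max ((max (T.absK p) ε) ^ l * T.absK p) ε) W := by
    intro ε hε hε1 l
    set s : ℝ := max (T.absK p) ε with hs
    have hs0 : 0 ≤ s := hp0.trans (le_max_left _ _)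
    have hs1 : s < 1 := max_lt T.p_lt hε1
    induction l with
    | zero =>
      intro m
      have h1 := WW_inT T (hβ m) (ψ m) (hψ m) P
      refine ⟨WW (β m) P, hWc m, hWd m, dimLE_of_inT T B (hdm m) (hWc m) hp0 T.p_lt h1,
        fun w hw b1 b2 j => (h1 w hw b1 b2 j).trans ?_⟩
      rw [pow_zero, one_mul]
      exact le_max_left _ _
    | succ l ih =>
      intro m
      obtain ⟨W₁, h1, h2, h3, h4⟩ := ih (m + 1)
      set δ' : ℝ := max (s ^ l * T.absK p) ε with hδ'
      have hsm : s ^ l ≤ 1 := pow_le_one₀ hs0 hs1.le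
      have h5 : 0 ≤ δ' := hε.le.trans (le_max_right _ _)
      have h6 : δ' ≤ s :=
        max_le ((mul_le_of_le_one_left hp0 hsm).trans (le_max_left _ _)) (le_max_right _ _)
      obtain ⟨W₂, a1, a2, a3, a4⟩ := step T B (hPm' m) (hdm m) hD
        (fun i => (hf i).map (ψ (m + 1))) (free_map (ψ (m + 1)) (h𝔫 (m + 1)) hfree)
        T.p_lt (hshr m) h5 (h6.trans_lt hs1) h1 h2 h3 h4 hε hε1
      refine ⟨W₂, a1, a2, a3, fun w hw b1 b2 j => (a4 w hw b1 b2 j).trans ?_⟩
      refine max_le ?_ (le_max_right _ _)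
      have h7 : nextR (T.absK p) δ' ≤ s * δ' := by
        refine max_le (mul_le_mul_of_nonneg_right h6 h5) (mul_le_mul_of_nonneg_right ?_ h5)
        exact le_max_left _ _
      refine h7.trans ?_
      rw [hδ', mul_max_of_nonneg _ _ hs0]
      refine max_le_max ?_ ?_
      · rw [pow_succ']
        exact le_of_eq (by ring)
      · exact mul_le_of_le_one_left hε.le hs1.le
  refine ⟨zeros_cone (hPm 0), zeros_dimLE (hPm 0) (hdm 0), ?_⟩
  refine approx_of_system T B (zeros_isZero _) ?_ (zeros_dimLE (hPm 0) (hdm 0)) fun ε hε => ?_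
  · intro j
    obtain ⟨D, hD, hPD⟩ := hPm 0 j
    rw [← aeval_toK]
    exact aeval_zero_form ⟨D, hD, toK_hom hPD⟩
  · have hε' : 0 < min ε (1 / 2) := lt_min hε (by norm_num)
    have hε1 : min ε (1 / 2) < 1 := (min_le_right _ _).trans_lt (by norm_num)
    have hs0 : 0 ≤ max (T.absK p) (min ε (1 / 2)) := hp0.trans (le_max_left _ _)
    obtain ⟨l, hl⟩ := exists_pow_lt_of_lt_one hε' (max_lt T.p_lt hε1)
    obtain ⟨W, a1, a2, a3, a4⟩ := key _ hε' hε1 l 0
    refine ⟨W, a1, a2, ?_⟩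
    have h5 := near_of_inT (hPm 0) (hε'.le.trans (le_max_right _ _)) a1 a4
    intro w hw hw1 j
    refine (h5 w hw hw1 j).trans (max_le ?_ (min_le_left _ _))
    exact ((mul_le_of_le_one_right (pow_nonneg hs0 l) T.p_lt.le).trans hl.le).trans
      (min_le_left _ _)

end Pool.Agent.H924.Ctr
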