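import Pool.Agent.H924.Ctr.Ainf

/-!
# Lifts of the Frobenius over the ring of Witt vectors of the integers of the tilt
-/

set_option autoImplicit false
set_option linter.unusedSectionVars false

namespace Pool.Agent.H924.Ctr

open MvPolynomial Pool.Agent.Y129.TA
open Pool.Agent.Y129.TB (IsConeOver InTube Approximable DimLEOver form_map eval_map_alg BaseField
  approx imageOver imageOver_cone OE)
open Pool.Agent.X271.TQ (IsZero hom_smul approx_of_system aeval_zero_form)

section Defs

variable {A L : Type} [CommRing A] [CommRing L] {ι ρ : Type}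

/-- The points over `L` of the cone with the equations `P j`, where `χ` is a homomorphism from the
ring `A` of the coefficients to `L`. -/
def conePoints (χ : A →+* L) (P : ρ → MvPolynomial ι A) : Set (ι → L) :=
  {x | ∀ j, eval₂ χ x (P j) = 0}

/-- The substitution of the `f i` maps the polynomials `P j`, after the application of the endomorphism
`φ` of the ring of the coefficients, to `I ^ 2 + p I`, where `I` is the ideal of the `P j`. -/
def ContractsTwist (p : ℕ) (φ : A →+* A) (P : ρ → MvPolynomial ι A) (f : ι → MvPolynomial ι A) :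
    Prop :=
  ∀ j, aeval f (MvPolynomial.map φ (P j)) ∈
    genIdeal P ^ 2 ⊔ coeffIdeal (Ideal.span {(p : A)}) ι * genIdeal P

/-- The endomorphism `φ` of `A` is a lift of the Frobenius: `φ a` is congruent to `a ^ p` modulo `p`. -/
def IsFrobeniusLift (p : ℕ) (φ : A →+* A) : Prop := ∀ a, ∃ b, φ a = a ^ p + p * b

/-- The polynomial `f i` is congruent to `x i ^ p` modulo `p`. -/
def CongruentToPowers (p : ℕ) (f : ι → MvPolynomial ι A) : Prop :=
  ∀ i, f i - X i ^ p ∈ coeffIdeal (Ideal.span {(p : A)}) ι

/-- The quotient by the ideal of the `P j` has no `p`-torsion. -/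
def NoTorsion (p : ℕ) (P : ρ → MvPolynomial ι A) : Prop :=
  ∀ Q, C (p : A) * Q ∈ genIdeal P → Q ∈ genIdeal P

/-- The `f i` define a lift of the Frobenius, compatible with the endomorphism `φ` of the ring of the
coefficients, to the closed subscheme with the ideal `I` of the `P j`: `φ` is a lift of the Frobenius; the
substitution of the `f i` maps the polynomials `P j`, after the application of `φ`, to `I`; `f i` is
congruent to `x i ^ p` modulo `p`; and the coordinate ring of the cone has no `p`-torsion. -/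
structure LiftsFrobenius (p : ℕ) (φ : A →+* A) (P : ρ → MvPolynomial ι A)
    (f : ι → MvPolynomial ι A) : Prop where
  frobenius : IsFrobeniusLift p φ
  maps : ∀ j, aeval f (MvPolynomial.map φ (P j)) ∈ genIdeal P
  lifts : CongruentToPowers p f
  noTorsion : NoTorsion p P

/-- There are forms `f i` of the same degree without common zero on the fibre over `A / 𝔪` which contract
towards a twist by a power of `φ`, or forms `f i` of degree `p` which define a lift of the Frobenius. -/
def HasFrobeniusLift (p : ℕ) (φ : A →+* A) (𝔪 : Ideal A) (P : ρ → MvPolynomial ι A) : Prop :=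
  (∃ (k D : ℕ) (f : ι → MvPolynomial ι A), 0 < D ∧ (∀ i, (f i).IsHomogeneous D) ∧
    FreeOnFibre 𝔪 P f ∧ ContractsTwist p (φ ^ k) P f) ∨
  ∃ f : ι → MvPolynomial ι A, (∀ i, (f i).IsHomogeneous p) ∧ LiftsFrobenius p φ P f

end Defs

section Alg

variable {A : Type} [CommRing A] {ι κ ρ : Type}

theorem mem_coeff_p {p : ℕ} {Q : MvPolynomial ι A} :
    Q ∈ coeffIdeal (Ideal.span {(p : A)}) ι ↔ ∃ R, Q = C (p : A) * R := by
  rw [coeffIdeal, Ideal.map_span, Set.image_singleton, Ideal.mem_span_singleton]
  rfl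

theorem aeval_sub_mem {J : Ideal (MvPolynomial ι A)} {f g : κ → MvPolynomial ι A}
    (h : ∀ i, f i - g i ∈ J) (Q : MvPolynomial κ A) : aeval f Q - aeval g Q ∈ J := by
  induction Q using MvPolynomial.induction_on with
  | C a => rw [aeval_C, aeval_C, sub_self]; exact J.zero_mem
  | add a b ha hb =>
    rw [map_add, map_add, add_sub_add_comm]
    exact J.add_mem ha hb
  | mul_X a i ha =>
    rw [map_mul, map_mul, aeval_X, aeval_X]
    have h1 : aeval f a * f i - aeval g a * g i =
        (aeval f a - aeval g a) * f i + aeval g a * (f i - g i) := by ring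
    rw [h1]
    exact J.add_mem (J.mul_mem_right _ ha) (J.mul_mem_left _ (h i))

theorem frob_poly {p : ℕ} [hp : Fact p.Prime] {φ : A →+* A}
    (hφ : ∀ a, ∃ b, φ a = a ^ p + p * b) (Q : MvPolynomial ι A) :
    aeval (fun i => (X i ^ p : MvPolynomial ι A)) (MvPolynomial.map φ Q) - Q ^ p ∈
      coeffIdeal (Ideal.span {(p : A)}) ι := by
  induction Q using MvPolynomial.induction_on with
  | C a =>
    obtain ⟨b, hb⟩ := hφ a
    rw [map_C, aeval_C, algebraMap_eq, hb, mem_coeff_p]
    refine ⟨C b, ?_⟩
    rw [C_add, C_mul, C_pow]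
    ring
  | add a b ha hb =>
    obtain ⟨r, hr⟩ := exists_add_pow_prime_eq hp.out a b
    have h1 : aeval (fun i => (X i ^ p : MvPolynomial ι A)) (MvPolynomial.map φ (a + b)) -
        (a + b) ^ p =
        (aeval (fun i => (X i ^ p : MvPolynomial ι A)) (MvPolynomial.map φ a) - a ^ p) +
        (aeval (fun i => (X i ^ p : MvPolynomial ι A)) (MvPolynomial.map φ b) - b ^ p) -
        C (p : A) * (a * b * r) := by
      rw [map_add, map_add, hr, map_natCast]
      ring
    rw [h1]
    exact Ideal.sub_mem _ (Ideal.add_mem _ ha hb) (mem_coeff_p.2 ⟨_, rfl⟩)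
  | mul_X a i ha =>
    have h1 : aeval (fun i => (X i ^ p : MvPolynomial ι A)) (MvPolynomial.map φ (a * X i)) -
        (a * X i) ^ p =
        (aeval (fun i => (X i ^ p : MvPolynomial ι A)) (MvPolynomial.map φ a) - a ^ p) * X i ^ p := by
      rw [map_mul, map_mul, map_X, aeval_X, mul_pow]
      ring
    rw [h1]
    exact Ideal.mul_mem_right _ _ ha

/-- A lift of the Frobenius contracts. -/
theorem LiftsFrobenius.contracts {p : ℕ} [hp : Fact p.Prime] {φ : A →+* A}
    {P : ρ → MvPolynomial ι A} {f : ι → MvPolynomial ι A}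
    (h : LiftsFrobenius p φ P f) : ContractsTwist p φ P f := by
  intro j
  have h1 := aeval_sub_mem h.lifts (MvPolynomial.map φ (P j))
  have h2 := frob_poly h.frobenius (P j)
  have h3 := Ideal.add_mem _ h1 h2
  rw [sub_add_sub_cancel] at h3
  obtain ⟨c, hc⟩ := mem_coeff_p.1 h3
  have hPj : P j ∈ genIdeal P := Ideal.subset_span ⟨j, rfl⟩
  have h4 : P j ^ p ∈ genIdeal P ^ 2 :=
    Ideal.pow_le_pow_right hp.out.two_le (Ideal.pow_mem_pow hPj p)
  have h5 : c ∈ genIdeal P := by
    refine h.noTorsion c ?_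
    rw [← hc]
    exact Ideal.sub_mem _ (h.maps j) (Ideal.pow_le_self two_ne_zero h4)
  have h6 : aeval f (MvPolynomial.map φ (P j)) = P j ^ p + C (p : A) * c := by
    rw [← hc]
    ring
  rw [h6]
  exact Submodule.add_mem_sup h4 (Ideal.mul_mem_mul (mem_coeff_p.2 ⟨1, (mul_one _).symm⟩) h5)

theorem LiftsFrobenius.free {p : ℕ} {φ : A →+* A} {𝔪 : Ideal A}
    (h𝔪 : (p : A) ∈ 𝔪) {P : ρ → MvPolynomial ι A} {f : ι → MvPolynomial ι A}
    (h : LiftsFrobenius p φ P f) : FreeOnFibre 𝔪 P f := by
  intro i
  refine ⟨p, ?_⟩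
  have h1 : (X i : MvPolynomial ι A) ^ p = f i - (f i - X i ^ p) := by ring
  rw [h1]
  refine Ideal.sub_mem _ ?_ ?_
  · exact (le_sup_right.trans le_sup_left : genIdeal f ≤ _) (Ideal.subset_span ⟨i, rfl⟩)
  · refine (le_sup_right : coeffIdeal 𝔪 ι ≤ _) (Ideal.map_mono ?_ (h.lifts i))
    rw [Ideal.span_singleton_le_iff_mem]
    exact h𝔪

end Alg

end Pool.Agent.H924.Ctr
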