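import Pool.Agent.H924.Ctr.AinfB
import Pool.Graph.R_seed8.R388.TP.Main

/-!
# Rings with a lift of the Frobenius and homomorphisms to the integers of `K` and of its tilt
-/

set_option autoImplicit false
set_option linter.unusedSectionVars false

namespace Pool.Agent.H924.Ctr

open MvPolynomial Pool.Agent.Y129.TA
open Pool.Agent.Y129.TB (IsConeOver InTube Approximable DimLEOver form_map eval_map_alg BaseField
  approx imageOver imageOver_cone OE)
open Pool.Agent.X271.TQ (IsZero hom_smul approx_of_system aeval_zero_form)

/-- A ring `A` with an automorphism `φ` and with homomorphisms `θ` to the ring of integers of `K` and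
`β` to the ring of integers of the tilt `E` of `K`, such that `β (φ a) = β a ^ p`, and such that `θ a` is
congruent to `(β a)♯` modulo `p`. The main example is the ring `A = W(O_E)` of Fontaine, with the Frobenius
`φ`, the map `θ` of Fontaine and the reduction `β` modulo `p`. -/
structure TiltedRing {p : ℕ} {C F : Type} [Field C] [Field F] (T : TiltPair p C F) (K E A : Type)
    [Field K] [Field E] [Algebra K C] [Algebra E F] [CommRing A] where
  φ : A →+* A
  bijective : Function.Bijective φ
  θ : A →+* C
  θ_mem : ∀ a, ∃ c : K, algebraMap K C c = θ a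
  β : A →+* F
  β_mem : ∀ a, ∃ c : E, algebraMap E F c = β a
  β_le : ∀ a, T.absF (β a) ≤ 1
  frobenius : ∀ a, β (φ a) = β a ^ p
  close : ∀ a, T.absK (θ a - T.sharp (β a)) ≤ T.absK p

/-- The ideal of the elements of `A` with image of absolute value less than one in `F`. -/
def TiltedRing.ideal {p : ℕ} {C F : Type} [Field C] [Field F] {T : TiltPair p C F} {K E A : Type}
    [Field K] [Field E] [Algebra K C] [Algebra E F] [CommRing A] (R : TiltedRing T K E A) :
    Ideal A where
  carrier := {a | T.absF (R.β a) < 1}
  add_mem' {a b} ha hb := by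
    change T.absF (R.β (a + b)) < 1
    rw [map_add]
    exact (T.ultraF _ _).trans_lt (max_lt ha hb)
  zero_mem' := by
    change T.absF (R.β 0) < 1
    rw [map_zero, map_zero]
    exact one_pos
  smul_mem' c {x} hx := by
    change T.absF (R.β (c * x)) < 1
    rw [map_mul, map_mul]
    exact (mul_le_of_le_one_left (T.absF.nonneg _) (R.β_le c)).trans_lt hx

variable {p : ℕ} [hp : Fact p.Prime] {C F : Type} [Field C] [Field F] [CharP F p] {K E : Type}
  [Field K] [Field E] [Algebra K C] [Algebra E F]

theorem TiltedRing.frob_pow {T : TiltPair p C F} {A : Type} [CommRing A] (R : TiltedRing T K E A)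
    (k : ℕ) (a : A) : R.β ((R.φ ^ k) a) = R.β a ^ p ^ k := by
  induction k with
  | zero => rw [pow_zero, pow_zero, pow_one]; rfl
  | succ k ih =>
    rw [pow_succ', RingHom.mul_def, RingHom.comp_apply, R.frobenius, ih, ← pow_mul, pow_succ]

theorem TiltedRing.θ_le {T : TiltPair p C F} {A : Type} [CommRing A] (R : TiltedRing T K E A)
    (a : A) : T.absK (R.θ a) ≤ 1 := by
  have h1 : R.θ a = T.sharp (R.β a) + (R.θ a - T.sharp (R.β a)) := by ring
  rw [h1]
  refine (T.ultraK _ _).trans (max_le ?_ ((R.close a).trans T.p_lt.le))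
  rw [T.abs_sharp]
  exact R.β_le a

/-- The homomorphism `θ` with values in the ring of integers of `K`. -/
noncomputable def TiltedRing.thetaK {T : TiltPair p C F} {A : Type} [CommRing A]
    (R : TiltedRing T K E A) : A →+* intRing T K :=
  have h : ∀ a, algebraMap K C (R.θ_mem a).choose = R.θ a := fun a => (R.θ_mem a).choose_spec
  { toFun := fun a => ⟨(R.θ_mem a).choose, by
      change T.absK (algebraMap K C _) ≤ 1
      rw [h]
      exact R.θ_le a⟩
    map_one' := by
      apply Subtype.ext
      apply (algebraMap K C).injective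
      exact (h _).trans ((map_one R.θ).trans (map_one (algebraMap K C)).symm)
    map_mul' := fun a b => by
      apply Subtype.ext
      apply (algebraMap K C).injective
      exact (h _).trans ((map_mul R.θ a b).trans
        ((congrArg₂ (· * ·) (h a) (h b)).symm.trans (map_mul (algebraMap K C) _ _).symm))
    map_zero' := by
      apply Subtype.ext
      apply (algebraMap K C).injective
      exact (h _).trans ((map_zero R.θ).trans (map_zero (algebraMap K C)).symm)
    map_add' := fun a b => by
      apply Subtype.ext
      apply (algebraMap K C).injective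
      exact (h _).trans ((map_add R.θ a b).trans
        ((congrArg₂ (· + ·) (h a) (h b)).symm.trans (map_add (algebraMap K C) _ _).symm)) }

theorem TiltedRing.thetaK_spec {T : TiltPair p C F} {A : Type} [CommRing A]
    (R : TiltedRing T K E A) (a : A) : algebraMap K C (R.thetaK a : K) = R.θ a :=
  (R.θ_mem a).choose_spec

/-- **Q1 for the varieties with a lift of the Frobenius.** -/
theorem tilted_main [IsAlgClosed C] [IsAlgClosed F] (T : Tilting p C F) (B : BaseField T K E)
    {A : Type} [CommRing A] (R : TiltedRing T.toTiltPair K E A) {n d : ℕ} {ρ : Type} [Fintype ρ]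
    {P : ρ → MvPolynomial (Fin (n + 1)) A} (hP : AreForms P)
    (hGE : DimGE (conePoints R.β P) d) (hLE : FibreDimLE R.ideal P d)
    (h : HasFrobeniusLift p R.φ R.ideal P) :
    IsConeOver K (conePoints R.θ P) ∧ DimGE (conePoints R.θ P) d ∧
      DimLEOver K (conePoints R.θ P) d ∧
      Approximable T.toTiltPair K E (conePoints R.θ P) d := by
  have hp𝔪 : ((p : ℕ) : A) ∈ R.ideal := by
    change T.absF (R.β p) < 1
    rw [map_natCast, CharP.cast_eq_zero, map_zero]
    exact one_pos
  -- reduction to the first alternative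
  obtain ⟨k, D, f, hD, hf, hfree, hcon⟩ : ∃ (k D : ℕ)
      (f : Fin (n + 1) → MvPolynomial (Fin (n + 1)) A), 0 < D ∧
      (∀ i, (f i).IsHomogeneous D) ∧ FreeOnFibre R.ideal P f ∧
      ContractsTwist p (R.φ ^ k) P f := by
    rcases h with h | ⟨f, hf, h⟩
    · exact h
    · refine ⟨1, p, f, hp.out.pos, hf, h.free hp𝔪, ?_⟩
      rw [pow_one]
      exact h.contracts
  set σ : A →+* A := R.φ ^ k with hσ
  have hσb : Function.Bijective σ := by
    have h1 : ∀ k : ℕ, Function.Bijective (R.φ ^ k) := by
      intro k
      induction k with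
      | zero => rw [pow_zero]; exact Function.bijective_id
      | succ k ih =>
        rw [pow_succ', RingHom.mul_def]
        exact R.bijective.comp ih
    exact h1 k
  let e : A ≃+* A := RingEquiv.ofBijective σ hσb
  let τ : A →+* A := (e.symm : _ →+* _)
  have hτσ : ∀ a, τ (σ a) = a := fun a => e.symm_apply_apply a
  have hστ : ∀ a, σ (τ a) = a := fun a => e.apply_symm_apply a
  let β : ℕ → A →+* F := fun m => R.β.comp (τ ^ m)
  let ψ : ℕ → A →+* intRing T.toTiltPair K := fun m => R.thetaK.comp (τ ^ m)
  have hk : ∀ m a, β (m + 1) a ^ p ^ k = β m a := by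
    intro m a
    change R.β ((τ ^ (m + 1)) a) ^ p ^ k = R.β ((τ ^ m) a)
    rw [← R.frob_pow, ← hσ, pow_succ', RingHom.mul_def, RingHom.comp_apply, hστ]
  have hlt : ∀ m, ∀ a ∈ R.ideal, T.absF (β m a) < 1 := by
    intro m a ha
    induction m with
    | zero => exact ha
    | succ m ih =>
      rw [← hk, map_pow] at ih
      by_contra hno
      push Not at hno
      exact absurd ih (not_lt.2 (one_le_pow₀ hno))
  have h1 := tower T B τ β ψ (fun m a => R.β_le _) (fun m a => by
      change T.absK (algebraMap K C (R.thetaK _ : K) - T.sharp (R.β _)) ≤ T.absK p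
      rw [R.thetaK_spec]
      exact R.close _) (fun m a => by
      change R.thetaK ((τ ^ (m + 1)) a) = R.thetaK ((τ ^ m) (τ a))
      rw [pow_succ, RingHom.mul_def, RingHom.comp_apply]) (fun m a => R.β_mem _) hk hlt hP
    (Pσ := fun j => MvPolynomial.map σ (P j))
    (fun j => by
      rw [map_map]
      have h2 : τ.comp σ = RingHom.id _ := RingHom.ext hτσ
      rw [h2, map_id]) hLE (by
      have h2 : WW (β 0) P = conePoints R.β P := rfl
      rw [h2]
      exact hGE) hD hf hfree hcon
  have hz : zeros T.toTiltPair (fun j => MvPolynomial.map (ψ 0) (P j)) =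
      conePoints R.θ P := by
    ext x
    refine forall_congr' fun j => ?_
    rw [aeval_def, eval₂_map]
    have h2 : (algebraMap (intRing T.toTiltPair K) C).comp (ψ 0) = R.θ :=
      RingHom.ext fun a => R.thetaK_spec a
    rw [h2]
  rw [hz] at h1
  obtain ⟨a1, a2, a3⟩ := h1
  refine ⟨a1, ?_, a2, a3⟩
  obtain ⟨s, G, hG, hXG⟩ := Pool.Agent.R388.TP.exists_gens a1
    (Pool.Agent.R388.TP.nonempty_of_approximable T.toTiltPair a3)
  have h3 := Pool.Agent.R388.TP.dimGE_of_small T
    (Pool.Agent.R388.TP.small_of_approximable T.toTiltPair G hG hXG a3)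
  rw [← hXG] at h3
  exact h3

/-! ### The ring `W(O_E)` -/

instance charOE (T : TiltPair p C F) (E : Type) [Field E] [Algebra E F] : CharP (OE T E) p :=
  CharP.subring T.O p (OE T E)

theorem perfectOE [IsAlgClosed F] {T : Tilting p C F} (B : BaseField T K E) :
    PerfectRing (OE T.toTiltPair E) p :=
  PerfectRing.ofSurjective _ p fun x => by
    obtain ⟨y, hy⟩ := frob_surj T.toTiltPair x.1
    obtain ⟨c, hc⟩ : ∃ c : E, algebraMap E F c = ((x : T.toTiltPair.O) : F) := x.2
    obtain ⟨b, hb⟩ := B.perf c
    have h1 : ((y : T.toTiltPair.O) : F) ∈ (algebraMap E F).range := by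
      refine ⟨b, ?_⟩
      apply frobenius_inj F p
      rw [frobenius_def, frobenius_def, ← map_pow, hb, hc, ← hy]
      push_cast
      rfl
    exact ⟨⟨y, h1⟩, Subtype.ext hy⟩

/-- The ring `W(O_E)` of Fontaine. -/
noncomputable def ainf [IsAlgClosed F] {T : Tilting p C F} (B : BaseField T K E) :
    TiltedRing T.toTiltPair K E (WittVector p (OE T.toTiltPair E)) where
  φ := WittVector.frobenius
  bijective := by
    have := perfectOE B
    exact WittVector.frobenius_bijective p _
  θ := T.θ.comp (WittVector.map (OE T.toTiltPair E).subtype)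
  θ_mem a := by
    obtain ⟨y, hy⟩ := B.mem a
    exact ⟨y, hy.symm⟩
  β := (T.toTiltPair.O.subtype.comp (OE T.toTiltPair E).subtype).comp WittVector.constantCoeff
  β_mem a := (a.coeff 0).2
  β_le a := (a.coeff 0).1.2
  frobenius a := by
    change (((WittVector.frobenius a).coeff 0 : OE T.toTiltPair E) : F) =
      ((a.coeff 0 : OE T.toTiltPair E) : F) ^ p
    rw [WittVector.coeff_frobenius_charP]
    push_cast
    rfl
  close a := by
    have h1 := Tilting.abs_sub_le T (WittVector.map (OE T.toTiltPair E).subtype a)
    rwa [WittVector.map_coeff] at h1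

theorem ainf_frob [IsAlgClosed F] {T : Tilting p C F} (B : BaseField T K E)
    (a : WittVector p (OE T.toTiltPair E)) : ∃ b, (ainf B).φ a = a ^ p + p * b := by
  have := perfectOE B
  change ∃ b, WittVector.frobenius a = a ^ p + p * b
  obtain ⟨x', hx'⟩ := decomp (WittVector.frobenius a - a ^ p)
  have h0 : (WittVector.frobenius a - a ^ p).coeff 0 = 0 := by
    change WittVector.constantCoeff (WittVector.frobenius a - a ^ p) = 0
    rw [map_sub, map_pow, sub_eq_zero]
    exact WittVector.coeff_frobenius_charP _ _ _
  rw [h0, WittVector.teichmuller_zero, zero_add] at hx'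
  refine ⟨x', ?_⟩
  rw [← hx']
  ring

end Pool.Agent.H924.Ctr
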