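import Pool.Agent.H924.Ctr.Sec

/-!
# The coarse approximation
-/

set_option autoImplicit false
set_option linter.unusedSectionVars false

namespace Pool.Agent.H924.Ctr

open MvPolynomial Pool.Agent.Y129.TA
open Pool.Agent.Y129.TB (IsConeOver InTube Approximable DimLEOver form_map eval_map_alg BaseField
  approx imageOver imageOver_cone)
open Pool.Agent.Q219.PT (open_noZero)
open Pool.Agent.X271.TQ (IsZero)

section Spec

variable {A L F : Type} [CommRing A] [Field L] [IsAlgClosed L] [Field F] [IsAlgClosed F] {ι κ : Type}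
  [Fintype ι] [Fintype κ]

/-- The dimension does not become smaller under specialisation, with two different fields. -/
theorem dimGE_spec₂ (G : κ → MvPolynomial ι A) (D : κ → ℕ) (hG : ∀ k, (G k).IsHomogeneous (D k))
    (ψ : A →+* L) (ψ' : A →+* F) (hker : ∀ a, ψ a = 0 → ψ' a = 0) {d : ℕ}
    (h : DimGE {x : ι → L | ∀ k, eval x (MvPolynomial.map ψ (G k)) = 0} d) :
    DimGE {x : ι → F | ∀ k, eval x (MvPolynomial.map ψ' (G k)) = 0} d := by
  classical
  by_contra hno
  unfold DimGE at hno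
  push Not at hno
  obtain ⟨q, hq, hno⟩ := hno
  choose D' hD' hqD using hq
  have ft : ∀ j, Finite {m : ι →₀ ℕ // m.degree = D' j} := fun j =>
    (Finsupp.finite_of_degree_le (D' j)).subset
      (show {m : ι →₀ ℕ | m.degree = D' j} ⊆ _ from fun m hm => (show m.degree = D' j from hm).le)
  have : ∀ j, Fintype {m : ι →₀ ℕ // m.degree = D' j} := fun j => Fintype.ofFinite _
  let τ : Type := Σ j, {m : ι →₀ ℕ // m.degree = D' j}
  let Q : Fin d → MvPolynomial ι (MvPolynomial τ A) := fun j =>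
    ∑ m : {m : ι →₀ ℕ // m.degree = D' j}, monomial m.1 (X ⟨j, m⟩)
  have hQ : ∀ j, (Q j).IsHomogeneous (D' j) := fun j =>
    IsHomogeneous.sum _ _ _ fun m _ => isHomogeneous_monomial _ m.2
  let 𝒢 : κ ⊕ Fin d → MvPolynomial ι (MvPolynomial τ A) :=
    Sum.elim (fun k => MvPolynomial.map C (G k)) Q
  have h𝒢 : ∀ k, (𝒢 k).IsHomogeneous (Sum.elim D D' k) := by
    rintro (k | j)
    · exact (hG k).map _
    · exact hQ j
  have hmapC : ∀ {M : Type} [Field M] (φ : A →+* M) (b : τ → M) k,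
      MvPolynomial.map (eval₂Hom φ b) (MvPolynomial.map C (G k)) = MvPolynomial.map φ (G k) := by
    intro M _ φ b k
    rw [map_map]
    have h1 : (eval₂Hom φ b).comp C = φ := by
      ext a
      simp
    rw [h1]
  let b : τ → F := fun t => coeff t.2.1 (q t.1)
  have hQb : ∀ j, MvPolynomial.map (eval₂Hom ψ' b) (Q j) = q j := by
    intro j
    change MvPolynomial.map (eval₂Hom ψ' b) (∑ m : {m : ι →₀ ℕ // m.degree = D' j},
      monomial m.1 (X ⟨j, m⟩)) = q j
    rw [map_sum]
    ext m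
    rw [coeff_sum]
    by_cases hm : m.degree = D' j
    · rw [Finset.sum_eq_single ⟨m, hm⟩]
      · rw [map_monomial, coeff_monomial, if_pos rfl]
        simp [b]
      · intro m' _ hm'
        rw [map_monomial, coeff_monomial, if_neg fun h => hm' (Subtype.ext h)]
      · intro h
        exact absurd (Finset.mem_univ _) h
    · rw [(hqD j).coeff_eq_zero hm]
      refine Finset.sum_eq_zero fun m' _ => ?_
      rw [map_monomial, coeff_monomial, if_neg]
      rintro rfl
      exact hm m'.2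
  obtain ⟨Δ, hΔ, hΔ'⟩ := open_noZero 𝒢 (Sum.elim D D') h𝒢 (eval₂Hom ψ' b) fun x hx => by
    by_contra hx0
    obtain ⟨j, hj⟩ := hno x (fun k => by
      have h1 := hx (Sum.inl k)
      change eval x (MvPolynomial.map (eval₂Hom ψ' b) (MvPolynomial.map C (G k))) = 0 at h1
      rwa [hmapC] at h1) hx0
    refine hj ?_
    have h1 := hx (Sum.inr j)
    change eval x (MvPolynomial.map (eval₂Hom ψ' b) (Q j)) = 0 at h1
    rwa [hQb] at h1
  have hne : MvPolynomial.map ψ Δ ≠ 0 := by
    intro h0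
    refine hΔ ?_
    have h1 : MvPolynomial.map ψ' Δ = 0 := by
      ext β
      rw [coeff_map, coeff_zero]
      refine hker _ ?_
      rw [← coeff_map, h0, coeff_zero]
    rw [coe_eval₂Hom, ← eval_map, h1, map_zero]
  obtain ⟨b', hb'⟩ : ∃ b' : τ → L, eval b' (MvPolynomial.map ψ Δ) ≠ 0 := by
    by_contra hall
    push Not at hall
    exact hne (MvPolynomial.funext fun x => by rw [hall x, map_zero])
  have hχ' : eval₂Hom ψ b' Δ ≠ 0 := by
    rw [coe_eval₂Hom, ← eval_map]
    exact hb'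
  obtain ⟨y, hy, hy0, hyq⟩ := h (fun j => MvPolynomial.map (eval₂Hom ψ b') (Q j))
    fun j => ⟨D' j, hD' j, (hQ j).map _⟩
  refine hy0 (hΔ' (eval₂Hom ψ b') hχ' y ?_)
  rintro (k | j)
  · change eval y (MvPolynomial.map (eval₂Hom ψ b') (MvPolynomial.map C (G k))) = 0
    rw [hmapC]
    exact hy k
  · exact hyq j

end Spec

variable {p : ℕ} [hp : Fact p.Prime] {C F : Type} [Field C] [Field F] [CharP F p] [IsAlgClosed F]
  (T : Tilting p C F) {ι ρ : Type} [Fintype ι]

/-- The values at `w♯` of a polynomial the reduction of which vanishes at `w`. -/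
theorem coarse_bound [IsAlgClosed C] (s : Kap T.toTiltPair →+* F)
    (hs : ∀ c, ∃ x : T.O, (x : F) = s c ∧ phi T x = c)
    (Q : MvPolynomial ι (intRing T.toTiltPair C)) :
    ∃ c : ℝ, 0 ≤ c ∧ c < 1 ∧ ∀ w : ι → F, (∀ i, T.absF (w i) ≤ 1) →
      eval w (MvPolynomial.map (s.comp (red T.toTiltPair)) Q) = 0 →
      T.absK (aeval (fun i => T.sharp (w i)) Q) ≤ c := by
  classical
  choose x hx hx' using hs
  -- the coefficients
  have h1 : ∀ a : intRing T.toTiltPair C,
      T.absK ((a : C) - T.sharp (x (red T.toTiltPair a))) < 1 := by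
    intro a
    have h2 := hx' (red T.toTiltPair a)
    rw [phi_apply, ← sub_eq_zero, ← map_sub, red_eq_zero] at h2
    rw [← AbsoluteValue.map_neg]
    refine lt_of_le_of_lt (le_of_eq ?_) h2
    congr 1
    push_cast
    ring
  obtain ⟨c, hc0, hc1, hc⟩ : ∃ c : ℝ, 0 ≤ c ∧ c < 1 ∧ ∀ α ∈ Q.support,
      T.absK (((coeff α Q : intRing T.toTiltPair C) : C) - T.sharp (x (red T.toTiltPair (coeff α Q)))) ≤ c := by
    rcases Q.support.eq_empty_or_nonempty with h0 | h0
    · exact ⟨0, le_rfl, one_pos, fun α hα => by rw [h0] at hα; simp at hα⟩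
    · obtain ⟨α, hα, hmax⟩ := Q.support.exists_max_image
        (fun α => T.absK (((coeff α Q : intRing T.toTiltPair C) : C) - T.sharp (x (red T.toTiltPair (coeff α Q))))) h0
      exact ⟨_, T.absK.nonneg _, h1 (coeff α Q), hmax⟩
  refine ⟨max c (T.absK p), hc0.trans (le_max_left _ _), max_lt hc1 T.p_lt, fun w hw h0 => ?_⟩
  let t : ι → T.O := fun i => ⟨w i, hw i⟩
  let z : WittVector p T.O := ∑ α ∈ Q.support,
    WittVector.teichmuller p (x (red T.toTiltPair (coeff α Q)) * ∏ i, t i ^ α i)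
  have hz0 : z.coeff 0 = 0 := by
    have h2 : z.coeff 0 = ∑ α ∈ Q.support,
        x (red T.toTiltPair (coeff α Q)) * ∏ i, t i ^ α i := by
      change WittVector.constantCoeff z = _
      rw [map_sum]
      rfl
    rw [h2]
    apply Subtype.ext
    rw [Subring.coe_zero, ← h0, eval_map, eval₂_eq']
    push_cast
    refine Finset.sum_congr rfl fun α _ => ?_
    rw [hx]
    rfl
  have h3 := Tilting.abs_sub_le T z
  rw [hz0, Subring.coe_zero, T.toTiltPair.sharp_zero, sub_zero] at h3
  have h4 : T.θ z = ∑ α ∈ Q.support,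
      T.sharp (x (red T.toTiltPair (coeff α Q))) * ∏ i, T.sharp (w i) ^ α i := by
    rw [map_sum]
    refine Finset.sum_congr rfl fun α _ => ?_
    rw [T.θ_teich]
    push_cast
    rw [map_mul, map_prod]
    congr 1
    refine Finset.prod_congr rfl fun i _ => ?_
    rw [map_pow]
  have h5 : aeval (fun i => T.sharp (w i)) Q = T.θ z +
      ∑ α ∈ Q.support, (((coeff α Q : intRing T.toTiltPair C) : C) - T.sharp (x (red T.toTiltPair (coeff α Q)))) *
        ∏ i, T.sharp (w i) ^ α i := by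
    rw [h4, ← Finset.sum_add_distrib, aeval_def, eval₂_eq']
    refine Finset.sum_congr rfl fun α _ => ?_
    rw [sub_mul, add_sub_cancel]
    rfl
  rw [h5, max_comm]
  refine (T.ultraK _ _).trans (max_le_max h3 ?_)
  refine ultra_sum T.ultraK _ _ hc0 fun α hα => ?_
  rw [map_mul, map_prod]
  refine (mul_le_of_le_one_right (T.absK.nonneg _) ?_).trans (hc α hα)
  refine Finset.prod_le_one (fun i _ => T.absK.nonneg _) fun i _ => ?_
  rw [map_pow, T.abs_sharp]
  exact pow_le_one₀ (T.absF.nonneg _) (hw i)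

/-- The coarse approximation. -/
theorem coarse [IsAlgClosed C] [Fintype ρ] (B : BaseField T C F)
    {P : ρ → MvPolynomial ι (intRing T.toTiltPair C)} (hP : ∀ j, ∃ D, 0 < D ∧ (P j).IsHomogeneous D)
    {d : ℕ} (hd : SpecialDimLE T.toTiltPair P d)
    (hGE : DimGE {x : ι → C | ∀ j, aeval x (P j) = 0} d) :
    ∃ δ : ℝ, 0 ≤ δ ∧ δ < 1 ∧ ∃ W : Set (ι → F), IsConeOver F W ∧ DimGE W d ∧ DimLE W d ∧
      InT T.toTiltPair P δ W := by
  classical
  obtain ⟨s, hs⟩ := exists_section T
  choose D hD hPD using hP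
  let G : ρ → MvPolynomial ι F := fun j => MvPolynomial.map (s.comp (red T.toTiltPair)) (P j)
  let W : Set (ι → F) := {x | ∀ j, eval x (G j) = 0}
  have hWc : IsConeOver F W := by
    have h1 : IsZero F G W := fun y => by
      change (∀ j, eval y (G j) = 0) ↔ _
      simp only [aeval_eq_eval]
    exact h1.cone fun j => ⟨D j, hD j, (hPD j).map _⟩
  have hWd : DimGE W d := by
    refine dimGE_spec₂ (L := C) P D hPD (intRing T.toTiltPair C).subtype
      (s.comp (red T.toTiltPair)) (fun a ha => ?_) ?_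
    · have h1 : a = 0 := Subtype.ext ha
      rw [h1, map_zero]
    · have h1 : {x : ι → C | ∀ k, eval x (MvPolynomial.map (intRing T.toTiltPair C).subtype (P k)) = 0} =
          {x : ι → C | ∀ j, aeval x (P j) = 0} := by
        ext x
        refine forall_congr' fun j => ?_
        rw [eval_map, aeval_def]
        rfl
      rw [h1]
      exact hGE
  choose c hc0 hc1 hc using fun j => coarse_bound T s hs (P j)
  obtain ⟨δ, hδ0, hδ1, hδ⟩ : ∃ δ : ℝ, 0 ≤ δ ∧ δ < 1 ∧ ∀ j, c j ≤ δ := by
    rcases isEmpty_or_nonempty ρ with h0 | h0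
    · exact ⟨0, le_rfl, one_pos, fun j => (h0.false j).elim⟩
    · obtain ⟨j₀, hj₀⟩ := Finite.exists_max c
      exact ⟨c j₀, hc0 j₀, hc1 j₀, hj₀⟩
  have hT : InT T.toTiltPair P δ W := fun w hw hw1 _ j => (hc j w hw1 (hw j)).trans (hδ j)
  exact ⟨δ, hδ0, hδ1, W, hWc, hWd, dimLE_of_inT T B hd hWc hδ0 hδ1 hT, hT⟩

end Pool.Agent.H924.Ctr
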