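import Pool.Agent.H924.Ctr.Frob

/-!
# Descent to the base field
-/

set_option autoImplicit false
set_option linter.unusedSectionVars false

namespace Pool.Agent.H924.Ctr

open MvPolynomial Pool.Agent.Y129.TA
open Pool.Agent.Y129.TB (IsConeOver InTube Approximable DimLEOver form_map eval_map_alg BaseField
  approx imageOver imageOver_cone)

section Map

variable {p : ℕ} {C F K : Type} [Field C] [Field F] [Field K] [Algebra K C] {ι ρ κ : Type}

/-- The inclusion of the rings of integers. -/
def incl (T : TiltPair p C F) (K : Type) [Field K] [Algebra K C] : intRing T K →+* intRing T C where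
  toFun x := ⟨algebraMap K C x, x.2⟩
  map_one' := Subtype.ext (map_one (algebraMap K C))
  map_mul' _ _ := Subtype.ext (map_mul (algebraMap K C) _ _)
  map_zero' := Subtype.ext (map_zero (algebraMap K C))
  map_add' _ _ := Subtype.ext (map_add (algebraMap K C) _ _)

/-- The base change of polynomials. -/
noncomputable def bc (T : TiltPair p C F) (K : Type) [Field K] [Algebra K C] (ι : Type) :
    MvPolynomial ι (intRing T K) →+* MvPolynomial ι (intRing T C) :=
  MvPolynomial.map (incl T K)

variable {T : TiltPair p C F}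

theorem aeval_bc (Q : MvPolynomial ι (intRing T K)) (x : ι → C) :
    aeval x (bc T K ι Q) = aeval x Q := by
  rw [bc, aeval_def, eval₂_map, aeval_def]
  rfl

theorem bc_hom {Q : MvPolynomial ι (intRing T K)} {D : ℕ} (hQ : Q.IsHomogeneous D) :
    (bc T K ι Q).IsHomogeneous D := hQ.map _

theorem bc_X (i : ι) : bc T K ι (X i) = X i := map_X _ _

theorem map_span_bc (P : ρ → MvPolynomial ι (intRing T K)) :
    (Ideal.span (Set.range P)).map (bc T K ι) =
      Ideal.span (Set.range fun j => bc T K ι (P j)) := by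
  rw [Ideal.map_span, ← Set.range_comp]
  rfl

theorem map_max_bc : ((maxIdeal T K).map
      (MvPolynomial.C : intRing T K →+* MvPolynomial ι (intRing T K))).map (bc T K ι) ≤
    (maxIdeal T C).map (MvPolynomial.C : intRing T C →+* MvPolynomial ι (intRing T C)) := by
  rw [Ideal.map_map, Ideal.map_le_iff_le_comap]
  intro a ha
  change bc T K ι (MvPolynomial.C a) ∈
    (maxIdeal T C).map (MvPolynomial.C : intRing T C →+* MvPolynomial ι (intRing T C))
  rw [bc, map_C]
  exact Ideal.mem_map_of_mem _ (show incl T K a ∈ maxIdeal T C from ha)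

theorem radical_bc {P : ρ → MvPolynomial ι (intRing T K)} {q : κ → MvPolynomial ι (intRing T K)}
    {i : ι} (h : (X i : MvPolynomial ι (intRing T K)) ∈
      (Ideal.span (Set.range P) ⊔ Ideal.span (Set.range q) ⊔
        (maxIdeal T K).map MvPolynomial.C).radical) :
    (X i : MvPolynomial ι (intRing T C)) ∈
      (Ideal.span (Set.range fun j => bc T K ι (P j)) ⊔
        Ideal.span (Set.range fun j => bc T K ι (q j)) ⊔
        (maxIdeal T C).map MvPolynomial.C).radical := by
  obtain ⟨N, hN⟩ := h
  refine ⟨N, ?_⟩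
  have h1 := Ideal.mem_map_of_mem (bc T K ι) hN
  rw [map_pow, bc_X, Ideal.map_sup, Ideal.map_sup, map_span_bc, map_span_bc] at h1
  exact (sup_le_sup_left map_max_bc _) h1

theorem specialDim_bc {P : ρ → MvPolynomial ι (intRing T K)} {d : ℕ} (h : SpecialDimLE T P d) :
    SpecialDimLE T (fun j => bc T K ι (P j)) d := by
  obtain ⟨q, hq, hqX⟩ := h
  refine ⟨fun j => bc T K ι (q j), fun j => ?_, fun i => radical_bc (hqX i)⟩
  obtain ⟨D, hD, h⟩ := hq j
  exact ⟨D, hD, bc_hom h⟩

theorem contraction_bc {P : ρ → MvPolynomial ι (intRing T K)}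
    {f : κ → MvPolynomial ι (intRing T K)} {P' : MvPolynomial κ (intRing T K)}
    (h : aeval f P' ∈ Ideal.span (Set.range P) ^ 2 ⊔
      (maxIdeal T K).map MvPolynomial.C * Ideal.span (Set.range P)) :
    aeval (fun i => bc T K ι (f i)) (bc T K κ P') ∈
      Ideal.span (Set.range fun j => bc T K ι (P j)) ^ 2 ⊔
      (maxIdeal T C).map MvPolynomial.C * Ideal.span (Set.range fun j => bc T K ι (P j)) := by
  have h1 := Ideal.mem_map_of_mem (bc T K ι) h
  rw [Ideal.map_sup, Ideal.map_pow, Ideal.map_mul, map_span_bc] at h1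
  have h2 : bc T K ι (aeval f P') = aeval (fun i => bc T K ι (f i)) (bc T K κ P') := by
    have h3 : (bc T K ι).comp (aeval f : MvPolynomial κ (intRing T K) →ₐ[_] _).toRingHom =
        ((aeval fun i => bc T K ι (f i) : MvPolynomial κ (intRing T C) →ₐ[_] _).toRingHom).comp
          (bc T K κ) := by
      refine MvPolynomial.ringHom_ext (fun a => ?_) fun i => ?_
      · change bc T K ι (aeval f (MvPolynomial.C a)) = aeval _ (bc T K κ (MvPolynomial.C a))
        rw [aeval_C, bc, bc, map_C, aeval_C, algebraMap_eq, algebraMap_eq, map_C]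
      · change bc T K ι (aeval f (X i)) = aeval _ (bc T K κ (X i))
        rw [aeval_X, bc_X, aeval_X]
    exact congrArg (fun φ : MvPolynomial κ (intRing T K) →+* MvPolynomial ι (intRing T C) => φ P') h3
  rw [← h2]
  exact (sup_le_sup_left (Ideal.mul_mono_left map_max_bc) _) h1

end Map

variable {p : ℕ} [hp : Fact p.Prime] {C F K E : Type} [Field C] [Field F] [CharP F p] [Field K]
  [Field E] [Algebra K C] [Algebra E F] [IsAlgClosed C] [IsAlgClosed F] {ρ : Type} [Fintype ρ]

/-- The main theorem over `K`. -/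
theorem mainK (T : Tilting p C F) (B : BaseField T K E)
    (hE : Pool.Agent.Q219.PT.IsHenselianDense T.toTiltPair E) {n d : ℕ}
    {P : ρ → MvPolynomial (Fin (n + 1)) (intRing T.toTiltPair K)}
    (hP : ∀ j, ∃ D, 0 < D ∧ (P j).IsHomogeneous D) (hd : SpecialDimLE T.toTiltPair P d)
    (hGE : DimGE (zeros T.toTiltPair P) d)
    {f : Fin (n + 1) → MvPolynomial (Fin (n + 1)) (intRing T.toTiltPair K)} {D : ℕ} (hD : 0 < D)
    (hf : ∀ i, (f i).IsHomogeneous D)
    (hfree : ∀ i, (X i : MvPolynomial (Fin (n + 1)) (intRing T.toTiltPair K)) ∈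
      (Ideal.span (Set.range P) ⊔ Ideal.span (Set.range f) ⊔
        (maxIdeal T.toTiltPair K).map MvPolynomial.C).radical)
    (hcon : ∀ j, aeval f (P j) ∈ Ideal.span (Set.range P) ^ 2 ⊔
      (maxIdeal T.toTiltPair K).map MvPolynomial.C * Ideal.span (Set.range P)) :
    Approximable T.toTiltPair K E (zeros T.toTiltPair P) d := by
  refine Pool.Agent.Q219.PT.arithmetic_of_geometric B hE (zeros_cone hP) (zeros_dimLE hP hd) ?_
  have hz : zeros T.toTiltPair (fun j => bc T.toTiltPair K (Fin (n + 1)) (P j)) =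
      zeros T.toTiltPair P := by
    ext x
    exact forall_congr' fun j => by rw [aeval_bc]
  have h1 := mainC T (P := fun j => bc T.toTiltPair K (Fin (n + 1)) (P j)) (fun j => by
    obtain ⟨D, hD, h⟩ := hP j
    exact ⟨D, hD, bc_hom h⟩) (specialDim_bc hd) (by rw [hz]; exact hGE)
    (f := fun i => bc T.toTiltPair K (Fin (n + 1)) (f i)) hD (fun i => bc_hom (hf i))
    (fun i => radical_bc (hfree i)) (fun j => contraction_bc (hcon j))
  rwa [hz] at h1

end Pool.Agent.H924.Ctr
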