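import Pool.Agent.H924.Ctr.Main

/-!
# Self-maps which reduce to maps through the Frobenius
-/

set_option autoImplicit false
set_option linter.unusedSectionVars false

namespace Pool.Agent.H924.Ctr

open MvPolynomial Pool.Agent.Y129.TA
open Pool.Agent.Y129.TB (BaseField OE)

variable {p : ℕ} [hp : Fact p.Prime] {C F K E : Type} [Field C] [Field F] [CharP F p] [Field K]
  [Field E] [Algebra K C] [Algebra E F] [IsAlgClosed F] {ι ρ κ : Type}

/-- The residue field of a perfectoid field is perfect. -/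
theorem exists_root_mod (T : Tilting p C F) (B : BaseField T K E) (a : intRing T.toTiltPair K) :
    ∃ b : intRing T.toTiltPair K, a - b ^ p ∈ maxIdeal T.toTiltPair K := by
  obtain ⟨x, hx⟩ := B.surj (a : K) a.2
  obtain ⟨e, he⟩ := (x.coeff 0).2
  obtain ⟨c, hc⟩ := B.perf e
  have hy1 : T.absF (algebraMap E F c) ≤ 1 := by
    by_contra hlt
    push Not at hlt
    have h2 : 1 < T.absF (algebraMap E F c) ^ p := one_lt_pow₀ hlt hp.out.ne_zero
    rw [← map_pow, ← map_pow, hc, he] at h2
    exact absurd (x.coeff 0).1.2 (not_le.2 h2)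
  let y : OE T.toTiltPair E := ⟨⟨algebraMap E F c, hy1⟩, c, rfl⟩
  obtain ⟨b, hb⟩ := B.mem (WittVector.teichmuller p y)
  rw [WittVector.map_teichmuller] at hb
  have hb' : T.sharp (algebraMap E F c) = algebraMap K C b := by
    rw [← hb]
    exact (T.θ_teich ((OE T.toTiltPair E).subtype y)).symm
  have hb1 : T.absK (algebraMap K C b) ≤ 1 := by
    rw [← hb', T.abs_sharp]
    exact hy1
  refine ⟨⟨b, hb1⟩, ?_⟩
  have h1 := Tilting.abs_sub_le T (WittVector.map (OE T.toTiltPair E).subtype x)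
  rw [hx, WittVector.map_coeff] at h1
  have h2 : T.sharp (((OE T.toTiltPair E).subtype (x.coeff 0) : T.O) : F) = algebraMap K C b ^ p := by
    rw [← hb', ← map_pow, ← map_pow, hc]
    congr 1
    exact he.symm
  rw [h2] at h1
  change T.absK (algebraMap K C ((a : K) - b ^ p)) < 1
  rw [map_sub, map_pow]
  exact h1.trans_lt T.p_lt

section

variable {O : Type} [CommRing O] {M : Ideal O}

/-- The elements which are congruent to `p`-th powers. -/
theorem pow_mod_add (hpM : (p : O) ∈ M) {a b : O} (ha : ∃ h, a - h ^ p ∈ M)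
    (hb : ∃ h, b - h ^ p ∈ M) : ∃ h, (a + b) - h ^ p ∈ M := by
  obtain ⟨h, hh⟩ := ha
  obtain ⟨k, hk⟩ := hb
  refine ⟨h + k, ?_⟩
  rw [add_pow_prime_eq hp.out h k]
  have h1 : a + b - (h ^ p + k ^ p + p * h * k * ∑ i ∈ Finset.Ioo 0 p,
      h ^ (i - 1) * k ^ (p - i - 1) * ↑(p.choose i / p)) = (a - h ^ p) + (b - k ^ p) -
      p * (h * k * ∑ i ∈ Finset.Ioo 0 p, h ^ (i - 1) * k ^ (p - i - 1) * ↑(p.choose i / p)) := by
    ring
  rw [h1]
  exact M.sub_mem (M.add_mem hh hk) (M.mul_mem_right _ hpM)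

theorem pow_mod_mul {a b : O} (ha : ∃ h, a - h ^ p ∈ M)
    (hb : ∃ h, b - h ^ p ∈ M) : ∃ h, (a * b) - h ^ p ∈ M := by
  obtain ⟨h, hh⟩ := ha
  obtain ⟨k, hk⟩ := hb
  refine ⟨h * k, ?_⟩
  have h1 : a * b - (h * k) ^ p = (a - h ^ p) * b + h ^ p * (b - k ^ p) := by
    rw [mul_pow]
    ring
  rw [h1]
  exact M.add_mem (M.mul_mem_right _ hh) (M.mul_mem_left _ hk)

end

theorem p_mem_maxIdeal (T : Tilting p C F) : (p : intRing T.toTiltPair K) ∈ maxIdeal T.toTiltPair K := by
  change T.absK (algebraMap K C ((p : intRing T.toTiltPair K) : K)) < 1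
  have h1 : ((p : intRing T.toTiltPair K) : K) = (p : K) := by push_cast; rfl
  rw [h1, map_natCast]
  exact T.p_lt

/-- The composition with polynomials which are `p`-th powers modulo the maximal ideal. -/
theorem aeval_pow_mod (T : Tilting p C F) (B : BaseField T K E)
    {f : κ → MvPolynomial ι (intRing T.toTiltPair K)}
    (hf : ∀ i, ∃ h, f i - h ^ p ∈ (maxIdeal T.toTiltPair K).map
      (MvPolynomial.C : intRing T.toTiltPair K →+* MvPolynomial ι (intRing T.toTiltPair K)))
    (Q : MvPolynomial κ (intRing T.toTiltPair K)) :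
    ∃ h, aeval f Q - h ^ p ∈ (maxIdeal T.toTiltPair K).map
      (MvPolynomial.C : intRing T.toTiltPair K →+* MvPolynomial ι (intRing T.toTiltPair K)) := by
  induction Q using MvPolynomial.induction_on with
  | C a =>
    obtain ⟨b, hb⟩ := exists_root_mod T B a
    refine ⟨MvPolynomial.C b, ?_⟩
    rw [aeval_C, algebraMap_eq, ← map_pow, ← map_sub]
    exact Ideal.mem_map_of_mem _ hb
  | add a b ha hb =>
    rw [map_add]
    refine pow_mod_add ?_ ha hb
    have h1 := Ideal.mem_map_of_mem (MvPolynomial.C : intRing T.toTiltPair K →+*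
      MvPolynomial ι (intRing T.toTiltPair K)) (p_mem_maxIdeal (K := K) T)
    rwa [map_natCast] at h1
  | mul_X a i ha =>
    rw [map_mul, aeval_X]
    exact pow_mod_mul ha (hf i)

/-- Torsion-free quotients. -/
theorem mem_mul_of_mem_inf {T : TiltPair p C F} {I : Ideal (MvPolynomial ι (intRing T K))}
    (hI : ∀ (a : intRing T K) (Q : MvPolynomial ι (intRing T K)), a ≠ 0 → MvPolynomial.C a * Q ∈ I →
      Q ∈ I) {Q : MvPolynomial ι (intRing T K)}
    (hQ : Q ∈ (maxIdeal T K).map (MvPolynomial.C : intRing T K →+* MvPolynomial ι (intRing T K)))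
    (hQI : Q ∈ I) : Q ∈ (maxIdeal T K).map MvPolynomial.C * I := by
  classical
  rcases Q.support.eq_empty_or_nonempty with h0 | h0
  · rw [support_eq_empty.1 h0]
    exact Ideal.zero_mem _
  · obtain ⟨α, hα, hmax⟩ := Q.support.exists_max_image
      (fun α => T.absK (algebraMap K C ((coeff α Q : intRing T K) : K))) h0
    have ha : coeff α Q ≠ 0 := mem_support_iff.1 hα
    have ha' : ((coeff α Q : intRing T K) : K) ≠ 0 := fun h => ha (Subtype.ext h)
    have ha0 : 0 < T.absK (algebraMap K C ((coeff α Q : intRing T K) : K)) :=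
      T.absK.pos ((map_ne_zero _).2 ha')
    have hdiv : ∀ β : ι →₀ ℕ, ((coeff β Q : intRing T K) : K) / ((coeff α Q : intRing T K) : K) ∈
        intRing T K := by
      intro β
      change T.absK (algebraMap K C _) ≤ 1
      rw [map_div₀, map_div₀, div_le_one ha0]
      by_cases hβ : β ∈ Q.support
      · exact hmax β hβ
      · rw [notMem_support_iff.1 hβ, Subring.coe_zero, map_zero, map_zero]
        exact ha0.le
    let R : MvPolynomial ι (intRing T K) := ∑ β ∈ Q.support, monomial β ⟨_, hdiv β⟩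
    have hR : Q = MvPolynomial.C (coeff α Q) * R := by
      rw [Finset.mul_sum]
      conv_lhs => rw [← support_sum_monomial_coeff Q]
      refine Finset.sum_congr rfl fun β _ => ?_
      rw [C_mul_monomial]
      congr 1
      apply Subtype.ext
      rw [Subring.coe_mul]
      exact (mul_div_cancel₀ _ ha').symm
    have hRI : R ∈ I := hI _ _ ha (by rw [← hR]; exact hQI)
    rw [hR]
    refine Ideal.mul_mem_mul (Ideal.mem_map_of_mem _ ?_) hRI
    exact (mem_map_C_iff.1 hQ) α

/-- The contraction condition for self-maps through the Frobenius. -/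
theorem contraction_of_frob (T : Tilting p C F) (B : BaseField T K E)
    {P : ρ → MvPolynomial ι (intRing T.toTiltPair K)}
    {P' : MvPolynomial κ (intRing T.toTiltPair K)}
    {f : κ → MvPolynomial ι (intRing T.toTiltPair K)}
    (hf : ∀ i, ∃ h, f i - h ^ p ∈ (maxIdeal T.toTiltPair K).map
      (MvPolynomial.C : intRing T.toTiltPair K →+* MvPolynomial ι (intRing T.toTiltPair K)))
    (hmap : aeval f P' ∈ Ideal.span (Set.range P))
    (hred : (Ideal.span (Set.range P) ⊔ (maxIdeal T.toTiltPair K).map MvPolynomial.C).IsRadical)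
    (htf : ∀ (a : intRing T.toTiltPair K) (Q : MvPolynomial ι (intRing T.toTiltPair K)), a ≠ 0 →
      MvPolynomial.C a * Q ∈ Ideal.span (Set.range P) → Q ∈ Ideal.span (Set.range P)) :
    aeval f P' ∈ Ideal.span (Set.range P) ^ 2 ⊔
      (maxIdeal T.toTiltPair K).map MvPolynomial.C * Ideal.span (Set.range P) := by
  obtain ⟨h, hh⟩ := aeval_pow_mod T B hf P'
  have h1 : h ^ p ∈ Ideal.span (Set.range P) ⊔ (maxIdeal T.toTiltPair K).map MvPolynomial.C := by
    have h2 : h ^ p = aeval f P' - (aeval f P' - h ^ p) := by ring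
    rw [h2]
    exact Ideal.sub_mem _ (Ideal.mem_sup_left hmap) (Ideal.mem_sup_right hh)
  have h2 : h ∈ Ideal.span (Set.range P) ⊔ (maxIdeal T.toTiltPair K).map MvPolynomial.C :=
    hred ⟨p, h1⟩
  obtain ⟨g, hg, m, hm, hgm⟩ := Submodule.mem_sup.1 h2
  have h3 : h ^ p - g ^ p ∈ (maxIdeal T.toTiltPair K).map
      (MvPolynomial.C : intRing T.toTiltPair K →+* MvPolynomial ι (intRing T.toTiltPair K)) := by
    have h4 : h - g ∣ h ^ p - g ^ p := sub_dvd_pow_sub_pow h g p
    refine Ideal.mem_of_dvd _ h4 ?_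
    rw [← hgm]
    simpa using hm
  have hgp : g ^ p ∈ Ideal.span (Set.range P) ^ 2 := by
    have h5 := Ideal.pow_mem_pow hg p
    exact Ideal.pow_le_pow_right hp.out.two_le h5
  have h6 : aeval f P' - g ^ p ∈ (maxIdeal T.toTiltPair K).map
      (MvPolynomial.C : intRing T.toTiltPair K →+* MvPolynomial ι (intRing T.toTiltPair K)) := by
    have h7 : aeval f P' - g ^ p = (aeval f P' - h ^ p) + (h ^ p - g ^ p) := by ring
    rw [h7]
    exact Ideal.add_mem _ hh h3
  have h8 : aeval f P' - g ^ p ∈ Ideal.span (Set.range P) :=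
    Ideal.sub_mem _ hmap (Ideal.pow_le_self two_ne_zero hgp)
  have h9 : aeval f P' = g ^ p + (aeval f P' - g ^ p) := by ring
  rw [h9]
  exact Ideal.add_mem _ (Ideal.mem_sup_left hgp)
    (Ideal.mem_sup_right (mem_mul_of_mem_inf htf h6 h8))

end Pool.Agent.H924.Ctr
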