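import Pool.Graph.R_seed8.X271.TqCls
import Pool.Graph.R_pool_sql_team_seeded_3997aac3.Q219.PT.Reduce

/-!
# The ring of integers; polynomials with integral coefficients
-/

set_option autoImplicit false
set_option linter.unusedSectionVars false

namespace Pool.Agent.H924.Ctr

open MvPolynomial Pool.Agent.Y129.TA

variable {p : ℕ} {C F : Type} [Field C] [Field F]

/-- The ring of integers of the subfield `K` of `C`. -/
def intRing (T : TiltPair p C F) (K : Type) [Field K] [Algebra K C] : Subring K where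
  carrier := {x | T.absK (algebraMap K C x) ≤ 1}
  mul_mem' {a b} ha hb := by
    change T.absK (algebraMap K C (a * b)) ≤ 1
    rw [map_mul, map_mul]
    exact mul_le_one₀ ha (T.absK.nonneg _) hb
  one_mem' := by
    change T.absK (algebraMap K C 1) ≤ 1
    rw [map_one, map_one]
  add_mem' {a b} ha hb := by
    change T.absK (algebraMap K C (a + b)) ≤ 1
    rw [map_add]
    exact (T.ultraK _ _).trans (max_le ha hb)
  zero_mem' := by
    change T.absK (algebraMap K C 0) ≤ 1
    rw [map_zero, map_zero]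
    exact zero_le_one
  neg_mem' {a} ha := by
    change T.absK (algebraMap K C (-a)) ≤ 1
    rw [map_neg, AbsoluteValue.map_neg]
    exact ha

/-- The maximal ideal of the ring of integers of `K`. -/
def maxIdeal (T : TiltPair p C F) (K : Type) [Field K] [Algebra K C] : Ideal (intRing T K) where
  carrier := {x | T.absK (algebraMap K C x) < 1}
  add_mem' {a b} ha hb := by
    change T.absK (algebraMap K C ((a + b : intRing T K) : K)) < 1
    rw [Subring.coe_add, map_add]
    exact (T.ultraK _ _).trans_lt (max_lt ha hb)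
  zero_mem' := by
    change T.absK (algebraMap K C ((0 : intRing T K) : K)) < 1
    rw [Subring.coe_zero, map_zero, map_zero]
    exact one_pos
  smul_mem' c {x} hx := by
    change T.absK (algebraMap K C ((c * x : intRing T K) : K)) < 1
    rw [Subring.coe_mul, map_mul, map_mul]
    exact (mul_le_of_le_one_left (T.absK.nonneg _) c.2).trans_lt hx

variable {T : TiltPair p C F} {K : Type} [Field K] [Algebra K C] {ι κ : Type}

/-- The point `z` has integral coordinates. -/
def Ball (T : TiltPair p C F) (z : ι → C) : Prop := ∀ i, T.absK (z i) ≤ 1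

/-- The polynomials with values at most `δ` at the point `z` form an ideal. -/
def smallIdeal (K : Type) [Field K] [Algebra K C] {z : ι → C} (_hz : Ball T z) {δ : ℝ} (hδ : 0 ≤ δ)
    (h1 : ∀ Q : MvPolynomial ι (intRing T K), T.absK (aeval z Q) ≤ 1) :
    Ideal (MvPolynomial ι (intRing T K)) where
  carrier := {Q | T.absK (aeval z Q) ≤ δ}
  add_mem' {a b} ha hb := by
    change T.absK (aeval z (a + b)) ≤ δ
    rw [map_add]
    exact (T.ultraK _ _).trans (max_le ha hb)
  zero_mem' := by
    change T.absK (aeval z 0) ≤ δ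
    rw [map_zero, map_zero]
    exact hδ
  smul_mem' c {x} hx := by
    change T.absK (aeval z (c * x)) ≤ δ
    rw [map_mul, map_mul]
    exact (mul_le_of_le_one_left (T.absK.nonneg _) (h1 c)).trans hx

theorem abs_aeval_le {z : ι → C} (hz : Ball T z) (Q : MvPolynomial ι (intRing T K)) :
    T.absK (aeval z Q) ≤ 1 := by
  induction Q using MvPolynomial.induction_on with
  | C a =>
    rw [aeval_C]
    exact a.2
  | add a b ha hb =>
    rw [map_add]
    exact (T.ultraK _ _).trans (max_le ha hb)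
  | mul_X a i ha =>
    rw [map_mul, map_mul, aeval_X]
    exact mul_le_one₀ ha (T.absK.nonneg _) (hz i)

theorem span_le {ρ : Type} {P : ρ → MvPolynomial ι (intRing T K)} {z : ι → C} (hz : Ball T z)
    {δ : ℝ} (hδ : 0 ≤ δ) (h : ∀ j, T.absK (aeval z (P j)) ≤ δ) :
    Ideal.span (Set.range P) ≤ smallIdeal K hz hδ (abs_aeval_le hz) := by
  rw [Ideal.span_le]
  rintro _ ⟨j, rfl⟩
  exact h j

/-- The polynomials with a value of absolute value less than one form a prime ideal. -/
def unitBallIdeal (K : Type) [Field K] [Algebra K C] {z : ι → C} (hz : Ball T z) :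
    Ideal (MvPolynomial ι (intRing T K)) where
  carrier := {Q | T.absK (aeval z Q) < 1}
  add_mem' {a b} ha hb := by
    change T.absK (aeval z (a + b)) < 1
    rw [map_add]
    exact (T.ultraK _ _).trans_lt (max_lt ha hb)
  zero_mem' := by
    change T.absK (aeval z 0) < 1
    rw [map_zero, map_zero]
    exact one_pos
  smul_mem' c {x} hx := by
    change T.absK (aeval z (c * x)) < 1
    rw [map_mul, map_mul]
    exact (mul_le_of_le_one_left (T.absK.nonneg _) (abs_aeval_le hz c)).trans_lt hx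

theorem unitBallIdeal_prime {z : ι → C} (hz : Ball T z) :
    (unitBallIdeal K hz).IsPrime := by
  refine Ideal.isPrime_iff.2 ⟨?_, ?_⟩
  · intro h
    have h1 : (1 : MvPolynomial ι (intRing T K)) ∈ unitBallIdeal K hz := by
      rw [h]
      exact Submodule.mem_top
    have h2 : T.absK (aeval z (1 : MvPolynomial ι (intRing T K))) < 1 := h1
    rw [map_one, map_one] at h2
    exact lt_irrefl _ h2
  · intro a b hab
    by_contra hno
    push Not at hno
    have h1 : T.absK (aeval z (a * b)) < 1 := hab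
    have ha : ¬ T.absK (aeval z a) < 1 := hno.1
    have hb : ¬ T.absK (aeval z b) < 1 := hno.2
    rw [map_mul, map_mul] at h1
    rw [not_lt] at ha hb
    have := mul_le_mul ha hb zero_le_one (T.absK.nonneg _)
    rw [mul_one] at this
    exact absurd this (not_le.2 h1)

/-- Polynomials without common zero on the special fibre. -/
theorem exists_abs_eq_one {J : Ideal (MvPolynomial ι (intRing T K))}
    {f : κ → MvPolynomial ι (intRing T K)}
    (h : ∀ i, (X i : MvPolynomial ι (intRing T K)) ∈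
      (J ⊔ Ideal.span (Set.range f) ⊔ (maxIdeal T K).map MvPolynomial.C).radical)
    {z : ι → C} (hz : Ball T z) (hz1 : ∃ i, T.absK (z i) = 1)
    (hJ : ∀ Q ∈ J, T.absK (aeval z Q) < 1) : ∃ i, T.absK (aeval z (f i)) = 1 := by
  by_contra hno
  push Not at hno
  obtain ⟨i, hi⟩ := hz1
  have hp := unitBallIdeal_prime (K := K) hz
  have h1 : (J ⊔ Ideal.span (Set.range f) ⊔ (maxIdeal T K).map MvPolynomial.C) ≤
      unitBallIdeal K hz := by
    refine sup_le (sup_le hJ ?_) ?_
    · rw [Ideal.span_le]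
      rintro _ ⟨j, rfl⟩
      exact lt_of_le_of_ne (abs_aeval_le hz (f j)) (hno j)
    · rw [Ideal.map_le_iff_le_comap]
      intro a ha
      change T.absK (aeval z (MvPolynomial.C a)) < 1
      rw [aeval_C]
      exact ha
  have h2 : (X i : MvPolynomial ι (intRing T K)) ∈ unitBallIdeal K hz :=
    (Ideal.IsPrime.radical_le_iff hp).2 h1 (h i)
  have h3 : T.absK (aeval z (X i : MvPolynomial ι (intRing T K))) < 1 := h2
  rw [aeval_X, hi] at h3
  exact lt_irrefl _ h3

/-- The polynomials which are uniformly of absolute value less than one on the ball. -/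
theorem map_maxIdeal_bound {Q : MvPolynomial ι (intRing T K)}
    (hQ : Q ∈ (maxIdeal T K).map (MvPolynomial.C : intRing T K →+* MvPolynomial ι (intRing T K))) :
    ∃ r : ℝ, 0 ≤ r ∧ r < 1 ∧ ∀ z : ι → C, Ball T z → T.absK (aeval z Q) ≤ r := by
  refine Submodule.span_induction (p := fun Q _ => ∃ r : ℝ, 0 ≤ r ∧ r < 1 ∧
    ∀ z : ι → C, Ball T z → T.absK (aeval z Q) ≤ r) ?_ ?_ ?_ ?_ hQ
  · rintro _ ⟨a, ha, rfl⟩
    refine ⟨_, T.absK.nonneg _, (show T.absK (algebraMap K C a) < 1 from ha), fun z _ => ?_⟩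
    change T.absK (aeval z (MvPolynomial.C a)) ≤ _
    rw [aeval_C]
    exact le_rfl
  · exact ⟨0, le_rfl, one_pos, fun z _ => by rw [map_zero, map_zero]⟩
  · rintro a b _ _ ⟨r, h1, h2, h3⟩ ⟨s, h4, h5, h6⟩
    refine ⟨max r s, h1.trans (le_max_left _ _), max_lt h2 h5, fun z hz => ?_⟩
    rw [map_add]
    exact (T.ultraK _ _).trans (max_le_max (h3 z hz) (h6 z hz))
  · rintro c a _ ⟨r, h1, h2, h3⟩
    refine ⟨r, h1, h2, fun z hz => ?_⟩
    rw [smul_eq_mul, map_mul, map_mul]
    exact (mul_le_of_le_one_left (T.absK.nonneg _) (abs_aeval_le hz c)).trans (h3 z hz)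

/-- The radius after one step. -/
def nextR (r δ : ℝ) : ℝ := max (δ * δ) (r * δ)

/-- The values of `Q` on the tubes around the zero set of the ideal `I` shrink. -/
def Shrinks {ρ : Type} (P : ρ → MvPolynomial ι (intRing T K)) (r : ℝ)
    (Q : MvPolynomial ι (intRing T K)) : Prop :=
  ∀ (z : ι → C) (δ : ℝ), Ball T z → 0 ≤ δ → (∀ j, T.absK (aeval z (P j)) ≤ δ) →
    T.absK (aeval z Q) ≤ nextR r δ

theorem Shrinks.mono {ρ : Type} {P : ρ → MvPolynomial ι (intRing T K)} {r s : ℝ} (hrs : r ≤ s)
    {Q : MvPolynomial ι (intRing T K)} (h : Shrinks P r Q) : Shrinks P s Q :=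
  fun z δ hz hδ hP => (h z δ hz hδ hP).trans
    (max_le_max le_rfl (mul_le_mul_of_nonneg_right hrs hδ))

theorem exists_shrinks {ρ : Type} (P : ρ → MvPolynomial ι (intRing T K))
    {Q : MvPolynomial ι (intRing T K)}
    (hQ : Q ∈ Ideal.span (Set.range P) ^ 2 ⊔
      (maxIdeal T K).map MvPolynomial.C * Ideal.span (Set.range P)) :
    ∃ r : ℝ, 0 ≤ r ∧ r < 1 ∧ Shrinks P r Q := by
  obtain ⟨a, ha, b, hb, rfl⟩ := Submodule.mem_sup.1 hQ
  have h1 : Shrinks P 0 a := by
    intro z δ hz hδ hP
    have h2 : Ideal.span (Set.range P) ^ 2 ≤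
        smallIdeal K hz (mul_nonneg hδ hδ) (abs_aeval_le hz) := by
      rw [pow_two, Ideal.mul_le]
      intro x hx y hy
      have hx' : T.absK (aeval z x) ≤ δ := span_le hz hδ hP hx
      have hy' : T.absK (aeval z y) ≤ δ := span_le hz hδ hP hy
      change T.absK (aeval z (x * y)) ≤ δ * δ
      rw [map_mul, map_mul]
      exact mul_le_mul hx' hy' (T.absK.nonneg _) hδ
    exact (show T.absK (aeval z a) ≤ δ * δ from h2 ha).trans (le_max_left _ _)
  have h3 : ∃ r : ℝ, 0 ≤ r ∧ r < 1 ∧ Shrinks P r b := by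
    refine Submodule.mul_induction_on hb ?_ ?_
    · intro m hm n hn
      obtain ⟨r, hr, hr1, h⟩ := map_maxIdeal_bound hm
      refine ⟨r, hr, hr1, fun z δ hz hδ hP => ?_⟩
      have hn' : T.absK (aeval z n) ≤ δ := span_le hz hδ hP hn
      rw [map_mul, map_mul]
      exact (mul_le_mul (h z hz) hn' (T.absK.nonneg _) hr).trans (le_max_right _ _)
    · rintro x y ⟨r, h1, h2, h3⟩ ⟨s, h4, h5, h6⟩
      refine ⟨max r s, h1.trans (le_max_left _ _), max_lt h2 h5, fun z δ hz hδ hP => ?_⟩
      rw [map_add]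
      exact (T.ultraK _ _).trans (max_le ((h3.mono (le_max_left _ _)) z δ hz hδ hP)
        ((h6.mono (le_max_right _ _)) z δ hz hδ hP))
  obtain ⟨r, hr, hr1, h⟩ := h3
  refine ⟨r, hr, hr1, fun z δ hz hδ hP => ?_⟩
  rw [map_add]
  exact (T.ultraK _ _).trans (max_le ((h1.mono hr) z δ hz hδ hP) (h z δ hz hδ hP))

/-- A common bound for finitely many polynomials. -/
theorem exists_shrinks_all {ρ σ : Type} [Finite σ] (P : ρ → MvPolynomial ι (intRing T K))
    (Q : σ → MvPolynomial ι (intRing T K))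
    (hQ : ∀ j, Q j ∈ Ideal.span (Set.range P) ^ 2 ⊔
      (maxIdeal T K).map MvPolynomial.C * Ideal.span (Set.range P)) :
    ∃ r : ℝ, 0 ≤ r ∧ r < 1 ∧ ∀ j, Shrinks P r (Q j) := by
  have : Fintype σ := Fintype.ofFinite σ
  choose r hr hr1 h using fun j => exists_shrinks P (hQ j)
  rcases isEmpty_or_nonempty σ with h0 | h0
  · exact ⟨0, le_rfl, one_pos, fun j => (h0.false j).elim⟩
  · obtain ⟨j₀, hj₀⟩ := Finite.exists_max r
    exact ⟨r j₀, hr j₀, hr1 j₀, fun j => (h j).mono (hj₀ j)⟩

end Pool.Agent.H924.Ctr
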