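import Pool.Agent.H924.Ctr.Coarse

/-!
# Contracting self-maps
-/

set_option autoImplicit false
set_option linter.unusedSectionVars false

namespace Pool.Agent.H924.Ctr

open MvPolynomial Pool.Agent.Y129.TA
open Pool.Agent.Y129.TB (IsConeOver InTube Approximable DimLEOver form_map eval_map_alg BaseField
  approx imageOver imageOver_cone)
open Pool.Agent.X271.TQ (IsZero hom_smul approx_of_system aeval_zero_form)

variable {p : ℕ} [hp : Fact p.Prime] {C F K E : Type} [Field C] [Field F] [CharP F p] [Field K]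
  [Field E] [Algebra K C] [Algebra E F] [IsAlgClosed C] [IsAlgClosed F] {ρ : Type}

/-- Iteration of the steps. -/
theorem iterate (T : Tilting p C F) (B : BaseField T K E) {n d : ℕ}
    {P : ρ → MvPolynomial (Fin (n + 1)) (intRing T.toTiltPair K)}
    (hP : ∀ j, ∃ D, (P j).IsHomogeneous D) (hd : SpecialDimLE T.toTiltPair P d)
    {f : Fin (n + 1) → MvPolynomial (Fin (n + 1)) (intRing T.toTiltPair K)} {D : ℕ} (hD : 0 < D)
    (hf : ∀ i, (f i).IsHomogeneous D)
    (hfree : ∀ i, (X i : MvPolynomial (Fin (n + 1)) (intRing T.toTiltPair K)) ∈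
      (Ideal.span (Set.range P) ⊔ Ideal.span (Set.range f) ⊔
        (maxIdeal T.toTiltPair K).map MvPolynomial.C).radical)
    {r : ℝ} (hr1 : r < 1) (hr : ∀ j, Shrinks P r (aeval f (P j)))
    {δ : ℝ} (hδ : 0 ≤ δ) (hδ1 : δ < 1) {W : Set (Fin (n + 1) → F)} (hW : IsConeOver E W)
    (hGE : DimGE W d) (hLE : DimLE W d) (hWT : InT T.toTiltPair P δ W) {ε : ℝ} (hε : 0 < ε)
    (hε1 : ε < 1) :
    ∃ W' : Set (Fin (n + 1) → F), IsConeOver E W' ∧ DimGE W' d ∧ DimLE W' d ∧
      InT T.toTiltPair P ε W' := by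
  set s : ℝ := max (max δ r) ε with hs
  have hs0 : 0 ≤ s := hδ.trans ((le_max_left _ _).trans (le_max_left _ _))
  have hs1 : s < 1 := max_lt (max_lt hδ1 hr1) hε1
  have key : ∀ m : ℕ, ∃ W' : Set (Fin (n + 1) → F), IsConeOver E W' ∧ DimGE W' d ∧ DimLE W' d ∧
      InT T.toTiltPair P (max (s ^ m * δ) ε) W' := by
    intro m
    induction m with
    | zero =>
      refine ⟨W, hW, hGE, hLE, fun w hw h1 h2 j => (hWT w hw h1 h2 j).trans ?_⟩
      rw [pow_zero, one_mul]
      exact le_max_left _ _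
    | succ m ih =>
      obtain ⟨W₁, h1, h2, h3, h4⟩ := ih
      set δ' : ℝ := max (s ^ m * δ) ε with hδ'
      have hsm : s ^ m ≤ 1 := pow_le_one₀ hs0 hs1.le
      have h5 : 0 ≤ δ' := hε.le.trans (le_max_right _ _)
      have h6 : δ' ≤ s := by
        refine max_le ((mul_le_of_le_one_left hδ hsm).trans ?_) (le_max_right _ _)
        exact (le_max_left _ _).trans (le_max_left _ _)
      obtain ⟨W₂, a1, a2, a3, a4⟩ := step T B hP hd hD hf hfree hr1 hr h5 (h6.trans_lt hs1) h1 h2 h3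
        h4 hε hε1
      refine ⟨W₂, a1, a2, a3, fun w hw b1 b2 j => (a4 w hw b1 b2 j).trans ?_⟩
      refine max_le ?_ (le_max_right _ _)
      have h7 : nextR r δ' ≤ s * δ' := by
        refine max_le (mul_le_mul_of_nonneg_right h6 h5) (mul_le_mul_of_nonneg_right ?_ h5)
        exact (le_max_right _ _).trans (le_max_left _ _)
      refine h7.trans ?_
      rw [hδ', mul_max_of_nonneg _ _ hs0]
      refine max_le_max ?_ ?_
      · rw [pow_succ']
        exact le_of_eq (by ring)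
      · exact mul_le_of_le_one_left hε.le hs1.le
  obtain ⟨m, hm⟩ := exists_pow_lt_of_lt_one hε hs1
  obtain ⟨W', h1, h2, h3, h4⟩ := key m
  refine ⟨W', h1, h2, h3, fun w hw b1 b2 j => (h4 w hw b1 b2 j).trans ?_⟩
  refine max_le ?_ le_rfl
  exact (mul_le_of_le_one_right (pow_nonneg hs0 m) hδ1.le).trans hm.le

/-- A nonzero vector over `C` can be scaled to have maximum one. -/
theorem exists_normalC (T : TiltPair p C F) {τ : Type} [Fintype τ] {w : τ → C} (hw : w ≠ 0) :
    ∃ a : C, a ≠ 0 ∧ (∀ i, T.absK (a * w i) ≤ 1) ∧ ∃ i, T.absK (a * w i) = 1 := by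
  obtain ⟨i₁, hi₁⟩ : ∃ i, w i ≠ 0 := by
    by_contra h
    push Not at h
    exact hw (funext h)
  have : Nonempty τ := ⟨i₁⟩
  obtain ⟨i₀, hi₀⟩ := Finite.exists_max fun i => T.absK (w i)
  have h0 : 0 < T.absK (w i₀) := (T.absK.pos hi₁).trans_le (hi₀ i₁)
  have h1 : w i₀ ≠ 0 := T.absK.pos_iff.1 h0
  refine ⟨(w i₀)⁻¹, inv_ne_zero h1, fun i => ?_, i₀, ?_⟩
  · rw [map_mul, map_inv₀, inv_mul_le_iff₀ h0, mul_one]
    exact hi₀ i
  · rw [inv_mul_cancel₀ h1, map_one]

/-- The zero set over `C`. -/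
def zeros (T : TiltPair p C F) {ι : Type} (P : ρ → MvPolynomial ι (intRing T K)) : Set (ι → C) :=
  {x | ∀ j, aeval x (P j) = 0}

theorem zeros_isZero {T : TiltPair p C F} {ι : Type} [Fintype ι]
    (P : ρ → MvPolynomial ι (intRing T K)) :
    IsZero C (fun j => toK T K (P j)) (zeros T P) := fun y => by
  change (∀ j, aeval y (P j) = 0) ↔ _
  exact forall_congr' fun j => by rw [aeval_toK]

theorem zeros_cone {T : TiltPair p C F} {ι : Type} [Fintype ι]
    {P : ρ → MvPolynomial ι (intRing T K)} (hP : ∀ j, ∃ D, 0 < D ∧ (P j).IsHomogeneous D) :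
    IsConeOver K (zeros T P) :=
  (zeros_isZero P).cone fun j => by
    obtain ⟨D, hD, h⟩ := hP j
    exact ⟨D, hD, toK_hom h⟩

theorem zeros_dimLE {T : TiltPair p C F} {ι : Type} [Fintype ι]
    {P : ρ → MvPolynomial ι (intRing T K)} (hP : ∀ j, ∃ D, 0 < D ∧ (P j).IsHomogeneous D) {d : ℕ}
    (hd : SpecialDimLE T P d) : DimLEOver K (zeros T P) d := by
  obtain ⟨q, hq, hqX⟩ := hd
  refine ⟨fun j => toK T K (q j), fun j => ?_, fun y hy hyq => ?_⟩
  · obtain ⟨D, hD, h⟩ := hq j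
    exact ⟨D, hD, toK_hom h⟩
  · by_contra hy0
    obtain ⟨a, ha, ha1, i, hi⟩ := exists_normalC T hy0
    have hay : a • y ∈ zeros T P := (zeros_cone hP).2 a y hy
    have hb : Ball T (a • y) := ha1
    obtain ⟨j, hj⟩ := exists_abs_eq_one hqX hb ⟨i, hi⟩ (fun Q hQ =>
      (show T.absK (aeval _ Q) ≤ 0 from span_le hb le_rfl (fun j => by
        rw [hay j, map_zero]) hQ).trans_lt one_pos)
    obtain ⟨D, hD, h⟩ := hq j
    rw [← aeval_toK, hom_smul (toK_hom h), hyq j, mul_zero, map_zero] at hj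
    exact zero_ne_one hj

/-- Points which are not normalised. -/
theorem near_of_inT {T : TiltPair p C F} {ι : Type} [Fintype ι]
    {P : ρ → MvPolynomial ι (intRing T K)} (hP : ∀ j, ∃ D, 0 < D ∧ (P j).IsHomogeneous D) {δ : ℝ}
    (hδ : 0 ≤ δ) {W : Set (ι → F)} (hW : IsConeOver E W) (h : InT T P δ W) :
    Pool.Agent.X271.TQ.Near T (fun j => toK T K (P j)) δ W := by
  intro w hw hw1 j
  obtain ⟨D, hD, hPD⟩ := hP j
  by_cases hw0 : w = 0
  · have h1 : (fun i => T.sharp (w i)) = (0 : ι → C) := by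
      funext i
      rw [hw0]
      exact T.sharp_zero
    rw [h1, aeval_zero_form ⟨D, hD, toK_hom hPD⟩, map_zero]
    exact hδ
  · obtain ⟨a, ha, ha1, i, hi⟩ := exists_normal T hw0
    have h2 := h (a • w) (hW.2 a w hw) ha1 ⟨i, hi⟩ j
    have h3 : (fun i => T.sharp ((a • w) i)) = T.sharp a • fun i => T.sharp (w i) := by
      funext i
      exact map_mul T.sharp _ _
    rw [h3, ← aeval_toK, hom_smul (toK_hom hPD), map_mul, map_pow, T.abs_sharp] at h2
    have h4 : 1 ≤ T.absF a := by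
      rw [← hi, map_mul]
      exact mul_le_of_le_one_right (T.absF.nonneg _) (hw1 i)
    refine le_trans ?_ h2
    exact le_mul_of_one_le_left (T.absK.nonneg _) (one_le_pow₀ h4)

/-- The main theorem over `C`. -/
theorem mainC (T : Tilting p C F) {n d : ℕ} [Fintype ρ]
    {P : ρ → MvPolynomial (Fin (n + 1)) (intRing T.toTiltPair C)}
    (hP : ∀ j, ∃ D, 0 < D ∧ (P j).IsHomogeneous D) (hd : SpecialDimLE T.toTiltPair P d)
    (hGE : DimGE (zeros T.toTiltPair P) d)
    {f : Fin (n + 1) → MvPolynomial (Fin (n + 1)) (intRing T.toTiltPair C)} {D : ℕ} (hD : 0 < D)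
    (hf : ∀ i, (f i).IsHomogeneous D)
    (hfree : ∀ i, (X i : MvPolynomial (Fin (n + 1)) (intRing T.toTiltPair C)) ∈
      (Ideal.span (Set.range P) ⊔ Ideal.span (Set.range f) ⊔
        (maxIdeal T.toTiltPair C).map MvPolynomial.C).radical)
    (hcon : ∀ j, aeval f (P j) ∈ Ideal.span (Set.range P) ^ 2 ⊔
      (maxIdeal T.toTiltPair C).map MvPolynomial.C * Ideal.span (Set.range P)) :
    Approximable T.toTiltPair C F (zeros T.toTiltPair P) d := by
  have B := Pool.Agent.Q219.PT.baseField_self T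
  obtain ⟨r, hr0, hr1, hr⟩ := exists_shrinks_all P (fun j => aeval f (P j)) hcon
  obtain ⟨δ, hδ0, hδ1, W, h1, h2, h3, h4⟩ := coarse T B hP hd hGE
  refine approx_of_system T B (zeros_isZero P) ?_ (zeros_dimLE hP hd) fun ε hε => ?_
  · intro j
    obtain ⟨D, hD, hPD⟩ := hP j
    rw [← aeval_toK]
    exact aeval_zero_form ⟨D, hD, toK_hom hPD⟩
  · have hε' : 0 < min ε (1 / 2) := lt_min hε (by norm_num)
    obtain ⟨W', a1, a2, a3, a4⟩ := iterate T B (fun j => by
      obtain ⟨D, _, h⟩ := hP j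
      exact ⟨D, h⟩) hd hD hf hfree hr1 hr hδ0 hδ1 h1 h2 h3 h4 hε'
      ((min_le_right _ _).trans_lt (by norm_num))
    refine ⟨W', a1, a2, ?_⟩
    have h5 := near_of_inT hP hε'.le a1 a4
    intro w hw hw1 j
    exact (h5 w hw hw1 j).trans (min_le_left _ _)

end Pool.Agent.H924.Ctr
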