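import Pool.Agent.H924.Ctr.Step

/-!
# The residue field and a coefficient field of the tilt
-/

set_option autoImplicit false
set_option linter.unusedSectionVars false

namespace Pool.Agent.H924.Ctr

open MvPolynomial Pool.Agent.Y129.TA

variable {p : ℕ} [hp : Fact p.Prime] {C F : Type} [Field C] [Field F] [CharP F p]

section TP

variable (T : TiltPair p C F)

theorem mem_maxIdeal {T : TiltPair p C F} {x : intRing T C} :
    x ∈ maxIdeal T C ↔ T.absK (x : C) < 1 := Iff.rfl

theorem mem_intRing {T : TiltPair p C F} {x : C} : x ∈ intRing T C ↔ T.absK x ≤ 1 := Iff.rfl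

instance maxIdeal_isMaximal : (maxIdeal T C).IsMaximal := by
  rw [Ideal.isMaximal_iff]
  refine ⟨?_, fun J x _ hx hxJ => ?_⟩
  · rw [mem_maxIdeal, Subring.coe_one, map_one]
    exact lt_irrefl _
  · have h1 : T.absK (x : C) = 1 := by
      rw [mem_maxIdeal, not_lt] at hx
      exact le_antisymm x.2 hx
    have h2 : (x : C) ≠ 0 := by
      intro h0
      rw [h0, map_zero] at h1
      exact zero_ne_one h1
    have h3 : (x : C)⁻¹ ∈ intRing T C := by
      rw [mem_intRing, map_inv₀, h1, inv_one]
    have h4 : (1 : intRing T C) = ⟨(x : C)⁻¹, h3⟩ * x := by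
      apply Subtype.ext
      rw [Subring.coe_mul, Subring.coe_one]
      exact (inv_mul_cancel₀ h2).symm
    rw [h4]
    exact J.mul_mem_left _ hxJ

/-- The residue field of `C`. -/
abbrev Kap : Type := intRing T C ⧸ maxIdeal T C

noncomputable instance : Field (Kap T) := Ideal.Quotient.field _

/-- The reduction. -/
noncomputable abbrev red : intRing T C →+* Kap T := Ideal.Quotient.mk _

theorem red_eq_zero {T : TiltPair p C F} {x : intRing T C} : red T x = 0 ↔ T.absK (x : C) < 1 := by
  rw [Ideal.Quotient.eq_zero_iff_mem]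
  exact mem_maxIdeal

/-- A monic polynomial with integral coefficients has integral roots. -/
theorem integral_root [IsAlgClosed C] {P : Polynomial (intRing T C)} (hP : P.Monic) {c : C}
    (hc : (P.map (intRing T C).subtype).eval c = 0) : T.absK c ≤ 1 := by
  by_contra hlt
  push Not at hlt
  have hc0 : 0 < T.absK c := one_pos.trans hlt
  rw [Polynomial.eval_map, Polynomial.eval₂_eq_sum_range, Finset.sum_range_succ,
    hP.coeff_natDegree, map_one, one_mul] at hc
  have h1 : c ^ P.natDegree =
      -∑ i ∈ Finset.range P.natDegree, (intRing T C).subtype (P.coeff i) * c ^ i := by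
    rw [← add_eq_zero_iff_eq_neg, add_comm]
    exact hc
  rcases Nat.eq_zero_or_pos P.natDegree with h0 | h0
  · rw [h0, pow_zero, Finset.range_zero, Finset.sum_empty, neg_zero] at h1
    exact one_ne_zero h1
  · have h2 : T.absK (∑ i ∈ Finset.range P.natDegree,
        (intRing T C).subtype (P.coeff i) * c ^ i) ≤ T.absK c ^ (P.natDegree - 1) := by
      refine ultra_sum T.ultraK _ _ (by positivity) fun i hi => ?_
      rw [map_mul, map_pow]
      have hi' := Finset.mem_range.1 hi
      refine (mul_le_of_le_one_left (by positivity) (P.coeff i).2).trans ?_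
      exact pow_le_pow_right₀ hlt.le (by omega)
    rw [← AbsoluteValue.map_neg, ← h1, map_pow] at h2
    have h3 : T.absK c ^ (P.natDegree - 1) < T.absK c ^ P.natDegree :=
      pow_lt_pow_right₀ hlt (by omega)
    exact absurd h2 (not_le.2 h3)

instance [IsAlgClosed C] : IsAlgClosed (Kap T) := by
  refine IsAlgClosed.of_exists_root _ fun P hP hirr => ?_
  obtain ⟨Q, hQ, hQd, hQm⟩ := Polynomial.lifts_and_natDegree_eq_and_monic
    (f := red T) (p := P) (by
      rw [Polynomial.lifts_iff_coeff_lifts]
      intro n
      exact Ideal.Quotient.mk_surjective _) hP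
  have hdeg : 0 < P.natDegree := hirr.natDegree_pos
  obtain ⟨c, hc⟩ := IsAlgClosed.exists_root (Q.map (intRing T C).subtype) (by
    rw [Polynomial.degree_map_eq_of_injective Subtype.val_injective]
    refine (Polynomial.natDegree_pos_iff_degree_pos.1 ?_).ne'
    rw [hQd]
    exact hdeg)
  have hc1 : c ∈ intRing T C := integral_root T hQm hc
  refine ⟨red T ⟨c, hc1⟩, ?_⟩
  have h1 : Q.eval (⟨c, hc1⟩ : intRing T C) = 0 := by
    apply Subtype.ext
    have h2 := Polynomial.eval_map_apply (f := (intRing T C).subtype) (p := Q) (⟨c, hc1⟩)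
    rw [Subring.coe_zero]
    exact h2.symm.trans hc
  rw [← hQ, Polynomial.eval_map_apply, h1, map_zero]

end TP

variable [IsAlgClosed F] (T : Tilting p C F)

/-- The map `♯` is additive modulo `p`. -/
theorem sharp_add (a b : T.O) :
    T.absK (T.sharp a + T.sharp b - T.sharp ((a + b : T.O) : F)) ≤ T.absK p := by
  have h1 := Tilting.abs_sub_le T (WittVector.teichmuller p a + WittVector.teichmuller p b)
  rwa [map_add, T.θ_teich, T.θ_teich, WittVector.add_coeff_zero,
    WittVector.teichmuller_coeff_zero, WittVector.teichmuller_coeff_zero] at h1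

theorem sharp_int (a : T.O) : T.sharp a ∈ intRing T.toTiltPair C := by
  rw [mem_intRing, T.abs_sharp]
  exact a.2

/-- The reduction of the elements of the ring of integers of `F`. -/
noncomputable def phi : T.O →+* Kap T.toTiltPair where
  toFun a := red T.toTiltPair ⟨T.sharp a, sharp_int T a⟩
  map_one' := by
    have : (⟨T.sharp ((1 : T.O) : F), sharp_int T 1⟩ : intRing T.toTiltPair C) = 1 := by
      apply Subtype.ext
      exact map_one T.sharp
    rw [this, map_one]
  map_mul' a b := by
    have : (⟨T.sharp ((a * b : T.O) : F), sharp_int T (a * b)⟩ : intRing T.toTiltPair C) =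
        ⟨T.sharp a, sharp_int T a⟩ * ⟨T.sharp b, sharp_int T b⟩ := by
      apply Subtype.ext
      exact map_mul T.sharp _ _
    rw [this, map_mul]
  map_zero' := by
    have : (⟨T.sharp ((0 : T.O) : F), sharp_int T 0⟩ : intRing T.toTiltPair C) = 0 := by
      apply Subtype.ext
      exact T.toTiltPair.sharp_zero
    rw [this, map_zero]
  map_add' a b := by
    rw [← map_add, ← sub_eq_zero, ← map_sub, red_eq_zero]
    have h1 := sharp_add T a b
    refine lt_of_le_of_lt ?_ T.p_lt
    rw [← AbsoluteValue.map_neg] at h1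
    refine le_trans (le_of_eq ?_) h1
    congr 1
    push_cast
    ring

theorem phi_apply (a : T.O) : phi T a = red T.toTiltPair ⟨T.sharp a, sharp_int T a⟩ := rfl

theorem phi_eq_zero {a : T.O} : phi T a = 0 ↔ T.absF (a : F) < 1 := by
  rw [phi_apply, red_eq_zero, ← T.abs_sharp]

theorem phi_surj : Function.Surjective (phi T) := by
  intro c
  obtain ⟨⟨x, hx⟩, rfl⟩ := Ideal.Quotient.mk_surjective c
  obtain ⟨y, rfl⟩ := T.surj x
  have hy : T.absF y ≤ 1 := by
    rw [← T.abs_sharp y]
    exact hx
  exact ⟨⟨y, hy⟩, rfl⟩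

end Pool.Agent.H924.Ctr
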