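import Pool.Agent.H924.Ctr.Res

/-!
# A coefficient field of the tilt
-/

set_option autoImplicit false
set_option linter.unusedSectionVars false

namespace Pool.Agent.H924.Ctr

open Pool.Agent.Y129.TA

variable {p : ℕ} [hp : Fact p.Prime] {C F : Type} [Field C] [Field F] [CharP F p] [IsAlgClosed F]
  (T : Tilting p C F)

theorem charP_Kap : CharP (Kap T.toTiltPair) p := by
  rw [CharP.charP_iff_prime_eq_zero hp.out]
  have h1 : phi T ((p : ℕ) : T.O) = 0 := by
    rw [CharP.cast_eq_zero, map_zero]
  rwa [map_natCast] at h1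

/-- The ring of integers of `F` contains a field which is mapped onto the residue field. -/
theorem exists_section : ∃ s : Kap T.toTiltPair →+* F, ∀ c, ∃ x : T.O, (x : F) = s c ∧
    phi T x = c := by
  classical
  let κ := Kap T.toTiltPair
  have hκ : CharP κ p := charP_Kap T
  let : Algebra (ZMod p) κ := ZMod.algebra κ p
  let : Algebra (ZMod p) T.O := ZMod.algebra T.O p
  obtain ⟨B, hB⟩ := exists_isTranscendenceBasis (ZMod p) κ
  choose g hg using fun i : B => phi_surj T (i : κ)
  let gM : MvPolynomial B (ZMod p) →ₐ[ZMod p] T.O := MvPolynomial.aeval g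
  let R := Algebra.adjoin (ZMod p) (Set.range ((↑) : B → κ))
  let e : MvPolynomial B (ZMod p) ≃ₐ[ZMod p] R := hB.1.aevalEquiv
  let gR : R →+* T.O := gM.toRingHom.comp e.symm.toRingEquiv.toRingHom
  have hgM : (phi T).comp gM.toRingHom =
      (MvPolynomial.aeval ((↑) : B → κ) : MvPolynomial B (ZMod p) →ₐ[ZMod p] κ).toRingHom := by
    refine MvPolynomial.ringHom_ext' (Subsingleton.elim _ _) fun i => ?_
    change phi T (MvPolynomial.aeval g (MvPolynomial.X i)) = MvPolynomial.aeval _ (MvPolynomial.X i)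
    rw [MvPolynomial.aeval_X, MvPolynomial.aeval_X, hg]
  have hgR : ∀ r : R, phi T (gR r) = (r : κ) := by
    intro r
    obtain ⟨m, rfl⟩ := e.surjective r
    have h1 : gR (e m) = gM m := by
      change gM (e.symm (e m)) = gM m
      rw [AlgEquiv.symm_apply_apply]
    rw [h1]
    have h2 := congrArg (fun h : MvPolynomial B (ZMod p) →+* κ => h m) hgM
    refine h2.trans ?_
    exact (hB.1.algebraMap_aevalEquiv m).symm
  let : Algebra R F := (T.O.subtype.comp gR).toAlgebra
  have hmap : ∀ r : R, algebraMap R F r = (gR r : F) := fun r => rfl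
  have hinj : Function.Injective (algebraMap R F) := by
    intro a b hab
    rw [hmap, hmap] at hab
    have h1 : gR a = gR b := Subtype.ext hab
    have h2 := hgR a
    rw [h1, hgR b] at h2
    exact Subtype.ext h2.symm
  have hdom : IsDomain R := inferInstance
  have h1 : FaithfulSMul R F := (faithfulSMul_iff_algebraMap_injective _ _).2 hinj
  have halg : Algebra.IsAlgebraic R κ := hB.isAlgebraic
  let ψ : κ →ₐ[R] F := IsAlgClosed.lift
  have habs : ∀ r : R, r ≠ 0 → T.absF (algebraMap R F r) = 1 := by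
    intro r hr
    rw [hmap]
    refine le_antisymm (gR r).2 ?_
    by_contra hlt
    push Not at hlt
    have h2 : phi T (gR r) = 0 := (phi_eq_zero T).2 hlt
    rw [hgR] at h2
    exact hr (Subtype.ext h2)
  have hψ : ∀ c : κ, T.absF (ψ c) ≤ 1 := by
    intro c
    by_contra hlt
    push Not at hlt
    obtain ⟨P, hP, hPc⟩ := halg.isAlgebraic c
    have h2 : Polynomial.aeval (ψ c) P = 0 := by
      rw [Polynomial.aeval_algHom_apply, hPc, map_zero]
    rw [Polynomial.aeval_eq_sum_range, Finset.sum_range_succ, add_eq_zero_iff_neg_eq] at h2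
    have h3 : T.absF (P.coeff P.natDegree • ψ c ^ P.natDegree) = T.absF (ψ c) ^ P.natDegree := by
      rw [Algebra.smul_def, map_mul, map_pow, habs _ (by
        rw [← Polynomial.leadingCoeff]
        exact Polynomial.leadingCoeff_ne_zero.2 hP), one_mul]
    have h4 : ∀ i, T.absF (P.coeff i • ψ c ^ i) ≤ T.absF (ψ c) ^ i := by
      intro i
      rw [Algebra.smul_def, map_mul, map_pow]
      refine mul_le_of_le_one_left (by positivity) ?_
      rw [hmap]
      exact (gR _).2
    rcases Nat.eq_zero_or_pos P.natDegree with h0 | h0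
    · rw [h0, Finset.range_zero, Finset.sum_empty, neg_zero, ← h0] at h2
      rw [← h2, map_zero, h0, pow_zero] at h3
      exact zero_ne_one h3
    · have h5 : T.absF (∑ i ∈ Finset.range P.natDegree, P.coeff i • ψ c ^ i) ≤
          T.absF (ψ c) ^ (P.natDegree - 1) := by
        refine ultra_sum T.ultraF _ _ (by positivity) fun i hi => ?_
        have hi' := Finset.mem_range.1 hi
        exact (h4 i).trans (pow_le_pow_right₀ hlt.le (by omega))
      rw [← AbsoluteValue.map_neg, h2, h3] at h5
      exact absurd h5 (not_le.2 (pow_lt_pow_right₀ hlt (by omega)))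
  let τ : κ →ₐ[R] κ :=
    { toFun := fun c => phi T ⟨ψ c, hψ c⟩
      map_one' := by
        have : (⟨ψ 1, hψ 1⟩ : T.O) = 1 := Subtype.ext (map_one ψ)
        rw [this, map_one]
      map_mul' := fun a b => by
        have : (⟨ψ (a * b), hψ _⟩ : T.O) = ⟨ψ a, hψ a⟩ * ⟨ψ b, hψ b⟩ := Subtype.ext (map_mul ψ a b)
        rw [this, map_mul]
      map_zero' := by
        have : (⟨ψ 0, hψ 0⟩ : T.O) = 0 := Subtype.ext (map_zero ψ)
        rw [this, map_zero]
      map_add' := fun a b => by
        have : (⟨ψ (a + b), hψ _⟩ : T.O) = ⟨ψ a, hψ a⟩ + ⟨ψ b, hψ b⟩ := Subtype.ext (map_add ψ a b)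
        rw [this, map_add]
      commutes' := fun r => by
        have : (⟨ψ (algebraMap R κ r), hψ _⟩ : T.O) = gR r :=
          Subtype.ext (ψ.commutes r)
        change phi T ⟨ψ (algebraMap R κ r), hψ _⟩ = _
        rw [this, hgR]
        rfl }
  have hτ : Function.Bijective τ := Algebra.IsAlgebraic.algHom_bijective τ
  let τe : κ ≃+* κ := RingEquiv.ofBijective τ.toRingHom hτ
  refine ⟨ψ.toRingHom.comp τe.symm.toRingHom, fun c => ?_⟩
  refine ⟨⟨ψ (τe.symm c), hψ _⟩, rfl, ?_⟩
  exact τe.apply_symm_apply c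

end Pool.Agent.H924.Ctr
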