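import Pool.Agent.H924.Ctr.Int

/-!
# One step of the contraction
-/

set_option autoImplicit false
set_option linter.unusedSectionVars false

namespace Pool.Agent.H924.Ctr

open MvPolynomial Pool.Agent.Y129.TA
open Pool.Agent.Y129.TB (IsConeOver InTube Approximable DimLEOver form_map eval_map_alg BaseField
  approx imageOver imageOver_cone)
open Pool.Agent.X271.TQ (joinSet dimGE_join univ_cone univ_dimGE cone_section dimGE_section powImage
  powImage_cone powImage_dimGE Free hom_smul)

variable {p : ℕ} [hp : Fact p.Prime] {C F K E : Type} [Field C] [Field F] [CharP F p] [Field K]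
  [Field E] [Algebra K C] [Algebra E F] {ι κ ρ ρ' : Type}

/-- The polynomial over `K`. -/
noncomputable def toK (T : TiltPair p C F) (K : Type) [Field K] [Algebra K C]
    (Q : MvPolynomial ι (intRing T K)) : MvPolynomial ι K :=
  MvPolynomial.map (intRing T K).subtype Q

theorem aeval_toK {T : TiltPair p C F} (Q : MvPolynomial ι (intRing T K)) (z : ι → C) :
    aeval z (toK T K Q) = aeval z Q := by
  rw [toK, aeval_def, eval₂_map, aeval_def]
  rfl

theorem toK_hom {T : TiltPair p C F} {Q : MvPolynomial ι (intRing T K)} {D : ℕ}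
    (hQ : Q.IsHomogeneous D) : (toK T K Q).IsHomogeneous D := hQ.map _

theorem abs_form_lt {T : TiltPair p C F} {z : ι → C} (hz : ∀ i, T.absK (z i) < 1)
    {Q : MvPolynomial ι (intRing T K)} {D : ℕ} (hQ : Q.IsHomogeneous D) (hD : 0 < D) :
    T.absK (aeval z Q) < 1 := by
  classical
  have hb : Ball T z := fun i => (hz i).le
  have hX : ∀ i, (X i : MvPolynomial ι (intRing T K)) ∈ unitBallIdeal K hb := by
    intro i
    change T.absK (aeval z (X i : MvPolynomial ι (intRing T K))) < 1
    rw [aeval_X]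
    exact hz i
  have h1 : Q ∈ unitBallIdeal K hb := by
    rw [← support_sum_monomial_coeff Q]
    refine Ideal.sum_mem _ fun α hα => ?_
    have h2 : α.degree = D := by
      by_contra hne
      exact (mem_support_iff.1 hα) (hQ.coeff_eq_zero hne)
    have h3 : α ≠ 0 := by
      rintro rfl
      rw [map_zero] at h2
      omega
    obtain ⟨i, hi⟩ := Finsupp.ne_iff.1 h3
    have hi' : 1 ≤ α i := Nat.one_le_iff_ne_zero.2 hi
    have h4 : monomial α (coeff α Q) = monomial (α - Finsupp.single i 1) (coeff α Q) * X i := by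
      rw [X, monomial_mul, mul_one, tsub_add_cancel_of_le (Finsupp.single_le_iff.2 hi')]
    rw [h4]
    exact Ideal.mul_mem_left _ _ (hX i)
  exact h1

theorem lipschitz_int {T : TiltPair p C F} {z z' : ι → C} (hz : Ball T z) (hz' : Ball T z') {ε : ℝ}
    (hε : 0 ≤ ε) (h : ∀ i, T.absK (z i - z' i) ≤ ε) (Q : MvPolynomial ι (intRing T K)) :
    T.absK (aeval z Q - aeval z' Q) ≤ ε := by
  induction Q using MvPolynomial.induction_on with
  | C a => rw [aeval_C, aeval_C, sub_self, map_zero]; exact hε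
  | add a b ha hb =>
    rw [map_add, map_add, add_sub_add_comm]
    exact (T.ultraK _ _).trans (max_le ha hb)
  | mul_X a i ha =>
    rw [map_mul, map_mul, aeval_X, aeval_X]
    have h1 : aeval z a * z i - aeval z' a * z' i =
        (aeval z a - aeval z' a) * z i + aeval z' a * (z i - z' i) := by ring
    rw [h1]
    refine (T.ultraK _ _).trans (max_le ?_ ?_)
    · rw [map_mul]
      exact (mul_le_of_le_one_right (T.absK.nonneg _) (hz i)).trans ha
    · rw [map_mul]
      exact (mul_le_of_le_one_left (T.absK.nonneg _) (abs_aeval_le hz' a)).trans (h i)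

/-- The points of `W` with integral coordinates, not all in the maximal ideal, are mapped to the tube
`|P j (z)| ≤ δ`. -/
def InT (T : TiltPair p C F) (P : ρ → MvPolynomial ι (intRing T K)) (δ : ℝ) (W : Set (ι → F)) : Prop :=
  ∀ w ∈ W, (∀ i, T.absF (w i) ≤ 1) → (∃ i, T.absF (w i) = 1) →
    ∀ j, T.absK (aeval (fun i => T.sharp (w i)) (P j)) ≤ δ

theorem ball_sharp {T : TiltPair p C F} {w : ι → F} (h : ∀ i, T.absF (w i) ≤ 1) :
    Ball T (fun i => T.sharp (w i)) := fun i => by
  rw [T.abs_sharp]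
  exact h i

/-- The special fibre of the zero set of `P` in projective space has dimension at most `d`. -/
def SpecialDimLE (T : TiltPair p C F) (P : ρ → MvPolynomial ι (intRing T K)) (d : ℕ) : Prop :=
  ∃ q : Fin (d + 1) → MvPolynomial ι (intRing T K), (∀ j, ∃ D, 0 < D ∧ (q j).IsHomogeneous D) ∧
    ∀ i, (X i : MvPolynomial ι (intRing T K)) ∈
      (Ideal.span (Set.range P) ⊔ Ideal.span (Set.range q) ⊔
        (maxIdeal T K).map MvPolynomial.C).radical

/-- The upper bound for the dimension of a set in a tube. -/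
theorem dimLE_of_inT [IsAlgClosed F] [Fintype ι] (T : Tilting p C F) (B : BaseField T K E)
    {P : ρ → MvPolynomial ι (intRing T.toTiltPair K)} {d : ℕ} (hd : SpecialDimLE T.toTiltPair P d)
    {W : Set (ι → F)} (hW : IsConeOver E W) {δ : ℝ} (hδ : 0 ≤ δ) (hδ1 : δ < 1)
    (hP : InT T.toTiltPair P δ W) : DimLE W d := by
  obtain ⟨q, hq, hqX⟩ := hd
  choose D hD hqD using hq
  choose Dg hDg g hg hga using fun j => approx T B (hD j) (toK_hom (hqD j))
    (show (0 : ℝ) < 1 / 2 by norm_num)
  refine ⟨fun j => MvPolynomial.map (algebraMap E F) (g j), fun j => form_map ⟨Dg j, hDg j, hg j⟩,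
    fun w hw hgw => ?_⟩
  by_contra hw0
  obtain ⟨a, ha, ha1, t, ht⟩ := exists_normal T.toTiltPair hw0
  have h1 := hP (a • w) (hW.2 a w hw) ha1 ⟨t, ht⟩
  have hb := ball_sharp (T := T.toTiltPair) (w := a • w) ha1
  obtain ⟨j, hj⟩ := exists_abs_eq_one hqX hb ⟨t, by rw [T.abs_sharp]; exact ht⟩
    (fun Q hQ => (show T.absK (aeval _ Q) ≤ δ from span_le hb hδ h1 hQ).trans_lt hδ1)
  have h2 := hga j (a • w) ha1 (by
    have := hgw j
    rw [eval_map_alg] at this
    rw [hom_smul (hg j), this, mul_zero])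
  rw [aeval_toK, hj] at h2
  norm_num at h2

/-- One step. -/
theorem step [IsAlgClosed C] [IsAlgClosed F] (T : Tilting p C F) (B : BaseField T K E)
    [Fintype ι] {n d : ℕ} {P : ρ → MvPolynomial ι (intRing T.toTiltPair K)}
    {P' : ρ' → MvPolynomial (Fin (n + 1)) (intRing T.toTiltPair K)}
    (hP' : ∀ j, ∃ D, (P' j).IsHomogeneous D) (hd : SpecialDimLE T.toTiltPair P' d)
    {f : Fin (n + 1) → MvPolynomial ι (intRing T.toTiltPair K)} {D : ℕ} (hD : 0 < D)
    (hf : ∀ i, (f i).IsHomogeneous D)
    (hfree : ∀ i, (X i : MvPolynomial ι (intRing T.toTiltPair K)) ∈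
      (Ideal.span (Set.range P) ⊔ Ideal.span (Set.range f) ⊔
        (maxIdeal T.toTiltPair K).map MvPolynomial.C).radical)
    {r : ℝ} (hr1 : r < 1) (hr : ∀ j, Shrinks P r (aeval f (P' j)))
    {δ : ℝ} (hδ : 0 ≤ δ) (hδ1 : δ < 1) {W : Set (ι → F)} (hW : IsConeOver E W) (hGE : DimGE W d)
    (hLE : DimLE W d) (hWT : InT T.toTiltPair P δ W) {ε : ℝ} (hε : 0 < ε) (hε1 : ε < 1) :
    ∃ W' : Set (Fin (n + 1) → F), IsConeOver E W' ∧ DimGE W' d ∧ DimLE W' d ∧
      InT T.toTiltPair P' (max (nextR r δ) ε) W' := by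
  classical
  -- the graph
  let g : Fin (n + 1) → MvPolynomial (ι ⊕ Fin (n + 1)) K := fun i =>
    rename Sum.inl (toK T.toTiltPair K (f i)) - MvPolynomial.X (Sum.inr i) ^ D
  have hg : ∀ i, (g i).IsHomogeneous D := fun i =>
    ((toK_hom (hf i)).rename_isHomogeneous).sub (isHomogeneous_X_pow _ _)
  have hge : ∀ (z : ι ⊕ Fin (n + 1) → C) i, aeval z (g i) =
      aeval (fun t => z (Sum.inl t)) (f i) - z (Sum.inr i) ^ D := by
    intro z i
    simp only [g, map_sub, map_pow, aeval_X, aeval_rename]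
    rw [← aeval_toK]
    rfl
  choose DG hDG G hG hGa using fun i => approx T B hD (hg i) hε
  have hGf : ∀ i, IsForm (G i) := fun i => ⟨DG i, hDG i, hG i⟩
  have huLE : DimLE (Set.univ : Set (Fin (n + 1) → F)) n := by
    refine ⟨fun j => MvPolynomial.X j, fun j => ⟨1, one_pos, isHomogeneous_X _ _⟩,
      fun y _ hy => funext fun j => ?_⟩
    have := hy j
    rwa [eval_X] at this
  have hJc : IsConeOver E (joinSet W (Set.univ : Set (Fin (n + 1) → F))) := by
    obtain ⟨s, H, hH, hHW⟩ := Pool.Agent.X271.TQ.exists_forms hW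
      (Pool.Agent.X271.TQ.DimGE.nonempty hGE)
    have hu : Pool.Agent.X271.TQ.IsZero F (fun k : Fin 0 => k.elim0 : Fin 0 →
        MvPolynomial (Fin (n + 1)) E) (Set.univ : Set (Fin (n + 1) → F)) :=
      fun y => ⟨fun _ k => k.elim0, fun _ => Set.mem_univ _⟩
    exact (Pool.Agent.X271.TQ.join_isZero hHW hu).cone
      (Pool.Agent.X271.TQ.join_form hH fun k => k.elim0)
  have hJd : DimGE (joinSet W (Set.univ : Set (Fin (n + 1) → F))) (d + n + 1) :=
    dimGE_join hW (univ_cone E F (Fin (n + 1))) hGE hLE (univ_dimGE F n) huLE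
  let S : Set (ι ⊕ Fin (n + 1) → F) :=
    {x | x ∈ joinSet W (Set.univ : Set (Fin (n + 1) → F)) ∧ ∀ k, aeval x (G k) = 0}
  have hSc : IsConeOver E S := cone_section hJc G hGf
  have hSd : DimGE S d := dimGE_section hJd G hGf (by rw [Fintype.card_fin]; omega)
  -- the main estimate
  have key : ∀ v ∈ S, v ≠ 0 → ∃ a : F, a ≠ 0 ∧ (∀ t, T.absF (a * v t) ≤ 1) ∧
      (∃ i, T.absF (a * v (Sum.inr i)) = 1) ∧
      (∃ t, T.absF (a * v (Sum.inl t)) = 1) ∧
      ∀ i, T.absK (aeval (fun t => T.sharp (a * v (Sum.inl t))) (f i) -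
        T.sharp (a * v (Sum.inr i)) ^ D) ≤ ε := by
    intro v hv hv0
    obtain ⟨a, ha, ha1, t, ht⟩ := exists_normal T.toTiltPair hv0
    have hav : a • v ∈ S := hSc.2 a v hv
    have h1 : ∀ i, T.absK (aeval (fun t => T.sharp (a * v (Sum.inl t))) (f i) -
        T.sharp (a * v (Sum.inr i)) ^ D) ≤ ε := by
      intro i
      have h2 := hGa i (a • v) ha1 (hav.2 i)
      rwa [hge] at h2
    have h2 : ∃ t, T.absF (a * v (Sum.inl t)) = 1 := by
      by_contra hno
      push Not at hno
      have hlt : ∀ t, T.absF (a * v (Sum.inl t)) < 1 := fun t =>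
        lt_of_le_of_ne (ha1 _) (hno t)
      rcases t with t | i
      · exact (hno t ht).elim
      · have h3 := h1 i
        have h4 : T.absK (aeval (fun t => T.sharp (a * v (Sum.inl t))) (f i)) < 1 :=
          abs_form_lt (fun t => by rw [T.abs_sharp]; exact hlt t) (hf i) hD
        have h5 : T.absK (T.sharp (a * v (Sum.inr i)) ^ D) < 1 := by
          have h6 : T.sharp (a * v (Sum.inr i)) ^ D =
              aeval (fun t => T.sharp (a * v (Sum.inl t))) (f i) +
              -(aeval (fun t => T.sharp (a * v (Sum.inl t))) (f i) -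
                T.sharp (a * v (Sum.inr i)) ^ D) := by ring
          rw [h6]
          refine (T.ultraK _ _).trans_lt (max_lt h4 ?_)
          rw [AbsoluteValue.map_neg]
          exact h3.trans_lt hε1
        rw [map_pow, T.abs_sharp, ht, one_pow] at h5
        exact lt_irrefl _ h5
    refine ⟨a, ha, ha1, ?_, h2, h1⟩
    have hb : Ball T.toTiltPair (fun t => T.sharp (a * v (Sum.inl t))) := fun t => by
      rw [T.abs_sharp]
      exact ha1 _
    have h3 := hWT (fun t => a * v (Sum.inl t)) hav.1.1 (fun t => ha1 _) h2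
    obtain ⟨i, hi⟩ := exists_abs_eq_one hfree hb (by
      obtain ⟨t, ht⟩ := h2
      exact ⟨t, by rw [T.abs_sharp]; exact ht⟩)
      (fun Q hQ => (show T.absK (aeval _ Q) ≤ δ from span_le hb hδ h3 hQ).trans_lt hδ1)
    refine ⟨i, ?_⟩
    have h4 : 1 ≤ T.absK (T.sharp (a * v (Sum.inr i)) ^ D) := by
      by_contra hlt
      push Not at hlt
      have h6 : aeval (fun t => T.sharp (a * v (Sum.inl t))) (f i) =
          T.sharp (a * v (Sum.inr i)) ^ D +
          (aeval (fun t => T.sharp (a * v (Sum.inl t))) (f i) -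
            T.sharp (a * v (Sum.inr i)) ^ D) := by ring
      have h7 : T.absK (aeval (fun t => T.sharp (a * v (Sum.inl t))) (f i)) < 1 := by
        rw [h6]
        exact (T.ultraK _ _).trans_lt (max_lt hlt ((h1 i).trans_lt hε1))
      rw [hi] at h7
      exact lt_irrefl _ h7
    rw [map_pow, T.abs_sharp] at h4
    refine le_antisymm (ha1 _) ?_
    by_contra hlt
    push Not at hlt
    exact absurd h4 (not_le.2 (pow_lt_one₀ (T.absF.nonneg _) hlt hD.ne'))
  have hfreeS : Free S := by
    intro v hv hvi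
    by_contra hv0
    obtain ⟨a, _, _, ⟨i, hi⟩, _⟩ := key v hv hv0
    rw [hvi i, mul_zero, map_zero] at hi
    exact zero_ne_one hi
  have hne : S.Nonempty := Pool.Agent.X271.TQ.DimGE.nonempty hSd
  have hc' : IsConeOver E (powImage D S) := powImage_cone hSc hne hD hfreeS
  have hd' : DimGE (powImage D S) d := powImage_dimGE hSd hD hfreeS
  have hT' : InT T.toTiltPair P' (max (nextR r δ) ε) (powImage D S) := by
    rintro y ⟨v, hv, hy⟩ hy1 ⟨i₀, hi₀⟩ j
    have hv0 : v ≠ 0 := by
      rintro rfl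
      have h1 := hy i₀
      rw [Pi.zero_apply, zero_pow hD.ne'] at h1
      rw [h1, map_zero] at hi₀
      exact zero_ne_one hi₀
    obtain ⟨a, ha, ha1, ⟨i₁, hi₁⟩, h2, h3⟩ := key v hv hv0
    have hay : ∀ i, a ^ D * y i = (a * v (Sum.inr i)) ^ D := fun i => by rw [hy i, mul_pow]
    have haD : T.absF (a ^ D) = 1 := by
      apply le_antisymm
      · have h4 : T.absF (a ^ D * y i₀) ≤ 1 := by
          rw [hay, map_pow]
          exact pow_le_one₀ (T.absF.nonneg _) (ha1 _)
        rwa [map_mul, hi₀, mul_one] at h4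
      · have h4 : T.absF (a ^ D * y i₁) = 1 := by rw [hay, map_pow, hi₁, one_pow]
        rw [map_mul] at h4
        rw [← h4]
        exact mul_le_of_le_one_right (T.absF.nonneg _) (hy1 i₁)
    obtain ⟨e, he⟩ := hP' j
    have h5 : T.absK (aeval (fun i => T.sharp (a ^ D * y i)) (P' j)) =
        T.absK (aeval (fun i => T.sharp (y i)) (P' j)) := by
      rw [← aeval_toK, ← aeval_toK]
      have h6 : (fun i => T.sharp (a ^ D * y i)) = T.sharp (a ^ D) • fun i => T.sharp (y i) := by
        funext i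
        rw [map_mul]
        rfl
      rw [h6, hom_smul (toK_hom he), map_mul, map_pow, T.abs_sharp, haD, one_pow, one_mul]
    rw [← h5]
    have hb : Ball T.toTiltPair (fun t => T.sharp (a * v (Sum.inl t))) := fun t => by
      rw [T.abs_sharp]
      exact ha1 _
    have hb1 : Ball T.toTiltPair (fun i => T.sharp (a ^ D * y i)) := fun i => by
      rw [T.abs_sharp, hay, map_pow]
      exact pow_le_one₀ (T.absF.nonneg _) (ha1 _)
    have hb2 : Ball T.toTiltPair (fun i => aeval (fun t => T.sharp (a * v (Sum.inl t))) (f i)) :=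
      fun i => abs_aeval_le hb (f i)
    have h7 := lipschitz_int hb1 hb2 hε.le (fun i => by
      have h8 : T.sharp (a ^ D * y i) - aeval (fun t => T.sharp (a * v (Sum.inl t))) (f i) =
          -(aeval (fun t => T.sharp (a * v (Sum.inl t))) (f i) -
            T.sharp (a * v (Sum.inr i)) ^ D) := by
        rw [hay, map_pow]
        ring
      rw [h8, AbsoluteValue.map_neg]
      exact h3 i) (P' j)
    have h8 := hr j _ δ hb hδ (hWT (fun t => a * v (Sum.inl t)) (hSc.2 a v hv).1.1
      (fun t => ha1 _) h2)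
    have h9 : aeval (fun t => T.sharp (a * v (Sum.inl t))) (aeval f (P' j)) =
        aeval (fun i => aeval (fun t => T.sharp (a * v (Sum.inl t))) (f i)) (P' j) := by
      have h10 : ((aeval (fun t => T.sharp (a * v (Sum.inl t))) :
          MvPolynomial ι (intRing T.toTiltPair K) →ₐ[intRing T.toTiltPair K] C).comp (aeval f)) =
          aeval fun i => aeval (fun t => T.sharp (a * v (Sum.inl t))) (f i) := by
        ext i
        simp
      exact congrArg (fun ψ : MvPolynomial (Fin (n + 1)) (intRing T.toTiltPair K) →ₐ[_] C =>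
        ψ (P' j)) h10
    rw [h9] at h8
    have h11 : aeval (fun i => T.sharp (a ^ D * y i)) (P' j) =
        aeval (fun i => aeval (fun t => T.sharp (a * v (Sum.inl t))) (f i)) (P' j) +
        (aeval (fun i => T.sharp (a ^ D * y i)) (P' j) -
        aeval (fun i => aeval (fun t => T.sharp (a * v (Sum.inl t))) (f i)) (P' j)) := by ring
    rw [h11]
    exact (T.ultraK _ _).trans (max_le_max h8 h7)
  have hρ0 : 0 ≤ nextR r δ := (mul_nonneg hδ hδ).trans (le_max_left _ _)
  have hρ1 : nextR r δ < 1 := by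
    refine max_lt ?_ ?_
    · exact (mul_le_of_le_one_left hδ hδ1.le).trans_lt hδ1
    · exact (mul_le_of_le_one_left hδ hr1.le).trans_lt hδ1
  exact ⟨powImage D S, hc', hd', dimLE_of_inT T B hd hc' (hρ0.trans (le_max_left _ _))
    (max_lt hρ1 hε1) hT', hT'⟩

end Pool.Agent.H924.Ctr
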