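import Pool.Agent.H924.Ctr.Desc

/-!
# Definitions for the statement on contracting self-maps
-/

set_option autoImplicit false

namespace Pool.Agent.H924.Ctr

open MvPolynomial

section

variable {R : Type} [CommRing R] {ι ρ κ : Type}

/-- The ideal generated by the `P j`. -/
noncomputable def genIdeal (P : ρ → MvPolynomial ι R) : Ideal (MvPolynomial ι R) :=
  Ideal.span (Set.range P)

/-- The ideal of the polynomials with coefficients in `𝔪`. -/
noncomputable def coeffIdeal (𝔪 : Ideal R) (ι : Type) : Ideal (MvPolynomial ι R) :=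
  𝔪.map MvPolynomial.C

/-- The `P j` are forms of positive degree. -/
def AreForms (P : ρ → MvPolynomial ι R) : Prop := ∀ j, ∃ e, 0 < e ∧ (P j).IsHomogeneous e

/-- The forms `f i` have no common zero on the fibre over `R / 𝔪` of the closed subscheme of projective
space with the equations `P j`: the radical of the ideal generated by the `P j`, the `f i` and `𝔪`
contains all variables. -/
def FreeOnFibre (𝔪 : Ideal R) (P : ρ → MvPolynomial ι R) (f : κ → MvPolynomial ι R) : Prop :=
  ∀ i, (X i : MvPolynomial ι R) ∈ (genIdeal P ⊔ genIdeal f ⊔ coeffIdeal 𝔪 ι).radical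

/-- The fibre over `R / 𝔪` of the closed subscheme of projective space with the equations `P j` has
dimension at most `d`: some `d + 1` forms have no common zero on it. -/
def FibreDimLE (𝔪 : Ideal R) (P : ρ → MvPolynomial ι R) (d : ℕ) : Prop :=
  ∃ q : Fin (d + 1) → MvPolynomial ι R, AreForms q ∧ FreeOnFibre 𝔪 P q

/-- The substitution of the `f i` maps the ideal `I` of the `P j` to `I ^ 2 + 𝔪 I`. -/
def KillsConormal (𝔪 : Ideal R) (P : ρ → MvPolynomial ι R) (f : ι → MvPolynomial ι R) : Prop :=
  ∀ j, aeval f (P j) ∈ genIdeal P ^ 2 ⊔ coeffIdeal 𝔪 ι * genIdeal P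

/-- The substitution of the `f i` maps the ideal `I` of the `P j` to itself, the `f i` are congruent to
`p`-th powers of polynomials modulo `𝔪`, the fibre over `R / 𝔪` of the cone with the ideal `I` is
reduced, and this cone is torsion-free over `R`. -/
structure ThroughFrobenius (p : ℕ) (𝔪 : Ideal R) (P : ρ → MvPolynomial ι R)
    (f : ι → MvPolynomial ι R) : Prop where
  selfMap : ∀ j, aeval f (P j) ∈ genIdeal P
  power : ∀ i, ∃ g, f i - g ^ p ∈ coeffIdeal 𝔪 ι
  reduced : (genIdeal P ⊔ coeffIdeal 𝔪 ι).IsRadical
  flat : ∀ (a : R) (Q : MvPolynomial ι R), a ≠ 0 → MvPolynomial.C a * Q ∈ genIdeal P →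
    Q ∈ genIdeal P

/-- There is a contracting self-map: forms `f i` of the same degree without common zero on the fibre over
`R / 𝔪`, such that the substitution of the `f i` maps the ideal `I` of the `P j` to `I ^ 2 + 𝔪 I`, or that
the `f i` define a self-map which reduces to a map through the Frobenius, on a flat cone with reduced
special fibre. -/
def HasContraction (p : ℕ) (𝔪 : Ideal R) (P : ρ → MvPolynomial ι R) : Prop :=
  ∃ (D : ℕ) (f : ι → MvPolynomial ι R), 0 < D ∧ (∀ i, (f i).IsHomogeneous D) ∧
    FreeOnFibre 𝔪 P f ∧ (KillsConormal 𝔪 P f ∨ ThroughFrobenius p 𝔪 P f)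

/-- The points over `L` of the cone with the equations `P j`. -/
def cone (L : Type) [CommRing L] [Algebra R L] (P : ρ → MvPolynomial ι R) : Set (ι → L) :=
  {x | ∀ j, aeval x (P j) = 0}

end

end Pool.Agent.H924.Ctr
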